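import Mathlib
import Pool.Agent.Helper18.Peb.Conc
import Pool.Agent.Helper18.Peb.St.PB1
import Pool.Agent.Helper18.Peb.St.PB2

set_option autoImplicit false

/-!
PB-3: the lower bound from PB-1 and PB-2.
-/

namespace Pool.Agent.Helper38.PB

open Pool.Agent.Helper18.Peb

private lemma dsum {α β : Type} [Fintype α] [Fintype β] [DecidableEq α] (f : α → β → ℕ) (s : α) :
    ∑ a, ∑ b, (if a = s then f a b else 0) = ∑ b, f s b := by
  rw [Finset.sum_comm]
  refine Finset.sum_congr rfl fun b _ => ?_
  rw [Finset.sum_ite_eq' Finset.univ s (fun a => f a b)]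
  simp

private lemma ssum {β : Type} [Fintype β] [DecidableEq β] (f : β → ℕ) (s : β) :
    ∑ b, (if b = s then f b else 0) = f s := by
  rw [Finset.sum_ite_eq' Finset.univ s f]
  simp

theorem claim1 (x : ℕ) (hx : x = 2 ^ 94 + 2 ^ 82) :
    ¬ Solvable (skel 1024 x 10 34 60 104).G
      ((skel 1024 x 10 34 60 104).ext (tipConf 1024 x (2 ^ 95 - 1)))
      ((skel 1024 x 10 34 60 104).ext (uvConf 1024 x)) := by
  intro hsol
  obtain ⟨fw, bw, hfb, hbal⟩ := Skel.balance _ _ (skel 1024 x 10 34 60 104)
    (skel_two_le (by norm_num) (by norm_num) (by norm_num) (by norm_num)) _ _ hsol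
  simp only [sum_KE] at hbal
  refine claim1_arith x hx (fun i => fw (.gu i)) (fun i => bw (.gu i)) (fun i => fw (.cv i))
    (fun i => bw (.cv i)) (fw .uv) (bw .uv) (fun σ => fw (.tail σ)) (fun σ => bw (.tail σ))
    (fun σ i => fw (.zg σ i)) (fun σ i => bw (.zg σ i)) (fun σ i => fw (.zc σ i))
    (fun σ i => bw (.zc σ i)) ?_ ?_ ?_ ?_ ?_ ?_ ?_
  · have h := hbal .u
    simp only [skel, uvConf, tipConf, reduceCtorEq, if_true, if_false, Finset.sum_const_zero,
      add_zero, zero_add] at h
    omega
  · have h := hbal .v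
    simp only [skel, uvConf, tipConf, reduceCtorEq, if_true, if_false, Finset.sum_const_zero,
      add_zero, zero_add] at h
    omega
  · intro i
    have h := hbal (.g i)
    simp only [skel, uvConf, tipConf, reduceCtorEq, if_true, if_false, Finset.sum_const_zero,
      add_zero, zero_add, KV.g.injEq, ssum] at h
    exact h
  · intro i
    have h := hbal (.c i)
    simp only [skel, uvConf, tipConf, reduceCtorEq, if_true, if_false, Finset.sum_const_zero,
      add_zero, zero_add, KV.c.injEq, ssum] at h
    exact h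
  · intro σ
    have h := hbal (.z σ)
    simp only [skel, uvConf, tipConf, reduceCtorEq, if_true, if_false, Finset.sum_const_zero,
      add_zero, zero_add, KV.z.injEq, ssum, dsum, Nat.reduceAdd] at h
    omega
  · intro σ
    have h := hbal (.y σ)
    simp only [skel, uvConf, tipConf, reduceCtorEq, if_true, if_false, Finset.sum_const_zero,
      add_zero, zero_add, KV.y.injEq, ssum] at h
    exact h
  · intro σ
    exact hfb _

private lemma size_ext {K E : Type} [Fintype K] [Fintype E] (X : Skel K E) (C : K → ℕ) :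
    size (X.ext C) = ∑ a, C a := by
  unfold size Skel.ext
  rw [Fintype.sum_sum_type]
  simp

/-- the size of the bad configuration -/
theorem size_tip (x : ℕ) (hx : x = 2 ^ 94 + 2 ^ 82) :
    size ((skel 1024 x 10 34 60 104).ext (tipConf 1024 x (2 ^ 95 - 1)))
      = (2 ^ 114 + 2 ^ 102) * (2 ^ 95 - 1) := by
  rw [size_ext, sum_KV]
  simp only [tipConf, Finset.sum_const_zero, zero_add, Finset.sum_const, Finset.card_univ,
    Fintype.card_prod, Fintype.card_fin, smul_eq_mul]
  rw [hx]
  norm_num

theorem size_uv (x : ℕ) : size ((skel 1024 x 10 34 60 104).ext (uvConf 1024 x)) = 2 := by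
  rw [size_ext, sum_KV]
  simp [uvConf]

end Pool.Agent.Helper38.PB
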