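import Pool.Agent.Helper94.PG.Tail

/-!
# Project PG+ (b), block B: tails from the exponential moments in the range `0 ≤ t ≤ t₀`
-/

set_option autoImplicit false

namespace Pool.Agent.Helper38.PB

open MeasureTheory Real Filter Pool.Agent.Helper94.PG

section

variable {Ω : Type*} [MeasurableSpace Ω] {P : Measure Ω} [IsProbabilityMeasure P]

/-- if `Y ≤ z` has probability at least `p` then `m` is not much larger than `z` -/
theorem mean_le_lim {Y : Ω → ℝ} (hY : Measurable Y) {M : ℝ} (hb : ∀ ω, |Y ω| ≤ M) {m K t₀ : ℝ}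
    (hK : 0 ≤ K) (ht₀ : 0 < t₀) (H : ∀ t : ℝ, 0 ≤ t → t ≤ t₀ →
      ∫ ω, exp (-(t * Y ω)) ∂P ≤ exp (-(t * m) + t ^ 2 * K / 2))
    {z p : ℝ} (hp : 0 < p) (hz : p ≤ P.real {ω | Y ω ≤ z}) :
    m ≤ z + √(2 * K * log (1 / p)) + 2 / t₀ * log (1 / p) := by
  have hp1 : p ≤ 1 := hz.trans measureReal_le_one
  have hL : 0 ≤ log (1 / p) := log_nonneg (by rw [le_div_iff₀ hp]; linarith)
  set L := log (1 / p) with hLd
  have h0 := sqrt_nonneg (2 * K * L)
  have h00 : 0 ≤ 2 / t₀ * L := by positivity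
  by_contra hcon
  push Not at hcon
  set s := m - z with hs
  have hs0 : 0 < s := by linarith
  have hch : ∀ t : ℝ, 0 ≤ t → t ≤ t₀ → t * s - t ^ 2 * K / 2 ≤ L := by
    intro t ht ht'
    have h1 := (chernoff hY hb ht z).trans
      (mul_le_mul_of_nonneg_left (H t ht ht') (exp_pos _).le)
    rw [← exp_add] at h1
    have h2 := hz.trans h1
    have h3 : log p ≤ t * z + (-(t * m) + t ^ 2 * K / 2) := (log_le_iff_le_exp hp).2 h2
    have h4 : L = -log p := by rw [hLd, one_div, log_inv]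
    rw [h4, hs]
    linarith
  rcases le_or_gt s (t₀ * K) with h1 | h1
  · have hK0 : 0 < K := by
      rcases hK.eq_or_lt with h2 | h2
      · rw [← h2, mul_zero] at h1
        linarith
      · exact h2
    have h2 := hch (s / K) (by positivity) (by rw [div_le_iff₀ hK0]; exact h1)
    have h3 : s / K * s - (s / K) ^ 2 * K / 2 = s ^ 2 / (2 * K) := by
      field_simp
      ring
    rw [h3, div_le_iff₀ (by positivity)] at h2
    have h5 : s ≤ √(2 * K * L) := by
      rw [← sqrt_sq hs0.le]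
      exact sqrt_le_sqrt (by linarith)
    linarith
  · have h2 := hch t₀ ht₀.le le_rfl
    have h3 : t₀ * s / 2 ≤ t₀ * s - t₀ ^ 2 * K / 2 := by nlinarith
    have h4 : s ≤ 2 / t₀ * L := by
      rw [div_mul_eq_mul_div, le_div_iff₀ ht₀]
      linarith
    linarith

/-- the first absolute moment -/
theorem abs_dev_lim {Y : Ω → ℝ} (hY : Measurable Y) {M : ℝ} (hb : ∀ ω, |Y ω| ≤ M) {K : ℝ}
    (hK : 0 < K) {t₀ : ℝ} (ht₀ : 1 / √K ≤ t₀)
    (H : ∀ t : ℝ, 0 ≤ t → t ≤ t₀ → ∫ ω, exp (-(t * Y ω)) ∂P ≤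
      exp (-(t * ∫ ω, Y ω ∂P) + t ^ 2 * K / 2)) :
    ∫ ω, |Y ω - ∫ ω', Y ω' ∂P| ∂P ≤ 4 * √K := by
  set m := ∫ ω, Y ω ∂P with hm
  have hr : 0 < √K := sqrt_pos.2 hK
  have hYi : Integrable Y P := Integrable.of_bound hY.aestronglyMeasurable M
    (Eventually.of_forall hb)
  have hi := int_exp (P := P) hY hb (1 / √K)
  have h1 := H (1 / √K) (by positivity) ht₀
  -- `|y| ≤ y + 2 √K exp (-y / √K)`
  have hpt : ∀ ω, |Y ω - m| ≤ (Y ω - m) +
      2 * √K * (exp (1 / √K * m) * exp (-(1 / √K * Y ω))) := by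
    intro ω
    rw [← exp_add]
    have e : 1 / √K * m + -(1 / √K * Y ω) = -((Y ω - m) / √K) := by ring
    rw [e]
    have hx := add_one_le_exp (-((Y ω - m) / √K))
    have hx0 := exp_pos (-((Y ω - m) / √K))
    rcases abs_cases (Y ω - m) with ⟨h, h'⟩ | ⟨h, h'⟩
    · rw [h]
      have : 0 ≤ 2 * √K * exp (-((Y ω - m) / √K)) := by positivity
      linarith
    · rw [h]
      have h5 : √K * (-((Y ω - m) / √K) + 1) ≤ √K * exp (-((Y ω - m) / √K)) :=
        mul_le_mul_of_nonneg_left hx hr.le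
      have h6 : √K * (-((Y ω - m) / √K) + 1) = -(Y ω - m) + √K := by
        field_simp
      linarith
  have hmi : Integrable (fun ω => Y ω - m) P := hYi.sub (integrable_const m)
  have h2 : ∫ ω, |Y ω - m| ∂P ≤ ∫ ω, ((Y ω - m) +
      2 * √K * (exp (1 / √K * m) * exp (-(1 / √K * Y ω)))) ∂P :=
    integral_mono hmi.abs (hmi.add ((hi.const_mul _).const_mul _)) hpt
  rw [integral_add hmi ((hi.const_mul _).const_mul _), integral_const_mul, integral_const_mul,
    integral_sub hYi (integrable_const m)] at h2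
  have h3 : ∫ _ω : Ω, m ∂P = m := by simp
  rw [h3, ← hm, sub_self, zero_add] at h2
  refine h2.trans ?_
  have h4 : exp (1 / √K * m) * ∫ ω, exp (-(1 / √K * Y ω)) ∂P ≤ exp (1 / 2) := by
    refine (mul_le_mul_of_nonneg_left h1 (exp_pos _).le).trans ?_
    rw [← exp_add]
    refine exp_le_exp.2 (le_of_eq ?_)
    have : √K ^ 2 = K := sq_sqrt hK.le
    field_simp
    rw [this]
    ring
  have h5 : exp (1 / 2) ≤ 2 := by
    have h6 : exp (1 / 2) ^ 2 ≤ 2 ^ 2 := by
      rw [← exp_nat_mul]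
      have := exp_one_lt_d9
      norm_num at this ⊢
      linarith
    exact le_of_sq_le_sq h6 (by norm_num)
  calc 2 * √K * (exp (1 / √K * m) * ∫ ω, exp (-(1 / √K * Y ω)) ∂P)
      ≤ 2 * √K * 2 := mul_le_mul_of_nonneg_left (h4.trans h5) (by positivity)
    _ = 4 * √K := by ring

end

end Pool.Agent.Helper38.PB
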