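import Pool.Agent.Helper38.PB.Herb
import Pool.Agent.Helper38.PB.TailL
import Pool.Agent.Helper51.NP.A

/-!
# Project PG+ (b), block B: corollaries of Herbst's bound for regular environments

The same statements as in `Helper51/NP/B.lean`, with `Reg P X a₀ c₀`, `a₀ ≤ c₀`, and the constant
`hr a₀ c₀ b B = b ^ 2 (B / a₀ + 1 + 1 / (exp c₀ - 1)) / 2` instead of `hk a b B`; the parameter `l`
is at most `1`.  Moreover `Z P X l x y ≤ 2 exp (- l a₀ n1 (y - x))` and `a₀ nr x ≤ nl P X l x`.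
-/

set_option autoImplicit false

namespace Pool.Agent.Helper38.PB

open MeasureTheory ProbabilityTheory Set Filter
open Pool.Agent.Helper79.GR Pool.Agent.Helper79.GQ Pool.Agent.Helper51.NP
open scoped Topology

variable {Ω : Type*} [MeasurableSpace Ω] {d : ℕ} {P : Measure Ω} {X : Edge d → Ω → ℝ}
  {ν : Measure ℝ} {a b B a₀ c₀ l : ℝ}

theorem hr_nonneg (ha₀ : 0 < a₀) (hc₀ : 0 < c₀) (hB : 0 ≤ B) : 0 ≤ hr a₀ c₀ b B := by
  have h10 : 1 < Real.exp c₀ := Real.one_lt_exp_iff.2 hc₀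
  have : 0 < Real.exp c₀ - 1 := by linarith
  unfold hr
  positivity

/-- the constant is at most cubic -/
theorem hr_le (ha₀ : 0 < a₀) (hc₀ : 1 ≤ c₀) (hb : 0 ≤ b) (hbB : b ≤ B) (hB : 1 ≤ B) :
    hr a₀ c₀ b B ≤ (1 / a₀ + 2) * B ^ 3 := by
  have h1 : 2 ≤ Real.exp c₀ := by
    have := Real.add_one_le_exp c₀
    linarith
  have h2 : 1 / (Real.exp c₀ - 1) ≤ 1 := by
    rw [div_le_one (by linarith)]
    linarith
  have h3 : b ^ 2 ≤ B ^ 2 := pow_le_pow_left₀ hb hbB 2
  have h4 : B / a₀ + 1 + 1 / (Real.exp c₀ - 1) ≤ (1 / a₀ + 2) * B := by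
    have : B / a₀ = 1 / a₀ * B := by ring
    rw [this]
    nlinarith
  have h5 : 0 ≤ B / a₀ + 1 + 1 / (Real.exp c₀ - 1) := by
    have : 0 < Real.exp c₀ - 1 := by linarith
    positivity
  unfold hr
  have h6 : b ^ 2 * (B / a₀ + 1 + 1 / (Real.exp c₀ - 1)) ≤ B ^ 2 * ((1 / a₀ + 2) * B) :=
    mul_le_mul h3 h4 h5 (by positivity)
  have h7 : 0 ≤ B ^ 2 * ((1 / a₀ + 2) * B) := by positivity
  nlinarith

theorem l_le (hR : Reg P X a₀ c₀) (hac : a₀ ≤ c₀) (hl1 : l ≤ 1) : l * a₀ ≤ c₀ := by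
  have := hR.1
  nlinarith

theorem herbst_Z (h : Env P X ν a b) (hR : Reg P X a₀ c₀) (hac : a₀ ≤ c₀) (hl : 0 ≤ l)
    (hl1 : l ≤ 1) (v : V d) :
    Z P X l 0 v ≤ Real.exp (-(l * mm P X v) + hr a₀ c₀ b b * l ^ 2 * n1 v) := by
  have h1 := herbst h hR le_rfl Set.univ hl (l_le hR hac hl1) 0 v
  have h2 : ∀ c : Edge d → ℝ, cut Set.univ b c = c := fun c =>
    cut_univ Set.univ fun e => Set.mem_univ e
  unfold Zc mc at h1
  simp only [h2, sub_zero] at h1
  exact h1

/-- the length of a walk is at least the distance of its ends -/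
theorem n1_le_length (x : V d) (w : List (St d)) : n1 (pos x w - x) ≤ w.length := by
  have h : Bd 1 1 (fun _ : Edge d => (1 : ℝ)) := ⟨one_pos, fun _ => ⟨le_rfl, le_rfl⟩⟩
  have h1 := le_T h x (pos x w)
  have h2 := T_le_cost h (x := x) (w := w) rfl
  have h3 : ∀ (l : List (Edge d)), (l.map fun _ => (1 : ℝ)).sum = l.length := by
    intro l
    simp
  rw [cost_eq_sum, h3, length_eds] at h2
  linarith

theorem n1_eq_nat (x : V d) : ∃ L : ℕ, n1 x = L := by
  refine ⟨∑ i, (x i).natAbs, ?_⟩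
  unfold n1
  push_cast
  refine Finset.sum_congr rfl fun i _ => ?_
  rw [Nat.cast_natAbs, Int.cast_abs]

theorem integrable_expn (h : Env P X ν a b) (l : ℝ) (x y : V d) :
    Integrable (fun ω => Real.exp (-(l * T (cf X ω) x y))) P := by
  have h1 := integrable_exp_T h (-l) x y
  simpa only [neg_mul] using h1

/-- **the exponential moments are at most those of a linear time** -/
theorem Z_le (h : Env P X ν a b) (hR : Reg P X a₀ c₀) (hl : 0 ≤ l) (hl₀ : l * a₀ ≤ c₀)
    (x y : V d) : Z P X l x y ≤ 2 * Real.exp (-(l * (a₀ * n1 (y - x)))) := by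
  have := h.prob
  obtain ⟨ha₀, hc₀, hP⟩ := hR
  obtain ⟨L, hL⟩ := n1_eq_nat (y - x)
  have hm := measurableSet_Chp h.meas a₀ x L
  have hpt : ∀ ω, Real.exp (-(l * T (cf X ω) x y)) ≤
      Real.exp (-(l * (a₀ * n1 (y - x)))) + (Chp X a₀ x L).indicator 1 ω := by
    intro ω
    by_cases hω : ω ∈ Chp X a₀ x L
    · rw [indicator_of_mem hω]
      have h1 : Real.exp (-(l * T (cf X ω) x y)) ≤ 1 := by
        refine Real.exp_le_one_iff.2 ?_
        have := mul_nonneg hl (T_nonneg' (h.cf_bd ω) x y)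
        linarith
      have h2 := Real.exp_pos (-(l * (a₀ * n1 (y - x))))
      simp only [Pi.one_apply]
      linarith
    · rw [indicator_of_notMem hω, add_zero]
      refine Real.exp_le_exp.2 (neg_le_neg (mul_le_mul_of_nonneg_left ?_ hl))
      obtain ⟨w, hw, hcw⟩ := exists_min (h.cf_bd ω) x y
      have hg : Geo (cf X ω) x w := by
        rw [geo_iff (h.cf_bd ω), hw]
        exact hcw
      by_contra hcon
      rw [not_le] at hcon
      apply hω
      have h3 := n1_le_length x w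
      rw [hw] at h3
      refine ⟨w, by rw [hL] at h3; exact_mod_cast h3, hg.nodup (h.cf_bd ω), ?_⟩
      rw [hcw]
      refine hcon.trans_le (mul_le_mul_of_nonneg_left h3 ha₀.le)
  have h1 := integral_mono (μ := P) (integrable_expn h l x y)
    ((integrable_const (Real.exp (-(l * (a₀ * n1 (y - x)))))).add
      ((integrable_const (1 : ℝ)).indicator hm)) hpt
  refine h1.trans ?_
  have h2 : ∫ ω, (Real.exp (-(l * (a₀ * n1 (y - x)))) + (Chp X a₀ x L).indicator 1 ω) ∂P =
      Real.exp (-(l * (a₀ * n1 (y - x)))) + P.real (Chp X a₀ x L) := by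
    have e := integral_add (μ := P) (integrable_const (Real.exp (-(l * (a₀ * n1 (y - x))))))
      ((integrable_const (1 : ℝ)).indicator hm)
    have e2 : ∫ ω, (Chp X a₀ x L).indicator (fun _ => (1 : ℝ)) ω ∂P = P.real (Chp X a₀ x L) :=
      integral_indicator_one hm
    rw [e2] at e
    simp only [integral_const, probReal_univ, smul_eq_mul, one_mul] at e
    exact e
  refine (le_of_eq h2).trans ?_
  have h3 : P.real (Chp X a₀ x L) ≤ Real.exp (-(c₀ * L)) :=
    ENNReal.toReal_le_of_le_ofReal (Real.exp_pos _).le (hP x L)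
  have h4 : Real.exp (-(c₀ * L)) ≤ Real.exp (-(l * (a₀ * n1 (y - x)))) := by
    refine Real.exp_le_exp.2 ?_
    rw [hL, ← mul_assoc]
    exact neg_le_neg (mul_le_mul_of_nonneg_right hl₀ (Nat.cast_nonneg _))
  linarith

/-- the annealed norm is at least `a₀` times the `ℓ¹` norm -/
theorem nl_ge (h : Env P X ν a b) (hR : Reg P X a₀ c₀) (hl : 0 < l) (hl₀ : l * a₀ ≤ c₀) (x : F d) :
    a₀ * nr x ≤ nl P X l x := by
  have ha₀ := hR.1
  have ht : Tendsto (fun n : ℕ => a₀ * (nr x - d / n) - Real.log 2 / l / n) atTop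
      (𝓝 (a₀ * (nr x - 0) - 0)) := by
    refine (tendsto_const_nhds.mul (tendsto_const_nhds.sub ?_)).sub ?_
    · exact tendsto_const_div_atTop_nhds_zero_nat (d : ℝ)
    · exact tendsto_const_div_atTop_nhds_zero_nat _
  rw [sub_zero, sub_zero] at ht
  refine le_of_tendsto_of_tendsto ht (tendsto_al h hl x) ?_
  filter_upwards [eventually_gt_atTop 0] with n hn
  have hn' : (0 : ℝ) < n := Nat.cast_pos.2 hn
  have h1 := Z_le h hR hl.le hl₀ 0 (fl n x)
  rw [Z_eq h hl, sub_zero] at h1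
  have h2 : Real.exp (-(l * al P X l (fl n x))) ≤
      Real.exp (Real.log 2 + -(l * (a₀ * n1 (fl n x)))) := by
    rw [Real.exp_add, Real.exp_log (by norm_num)]
    exact h1
  rw [Real.exp_le_exp] at h2
  have h3 : n * nr x - d ≤ n1 (fl n x) := by
    have h4 := nr_fl n x
    have h5 : nr ((n : ℝ) • x) ≤ nr (rv (fl n x)) + nr (rv (fl n x) - (n : ℝ) • x) := by
      unfold nr
      rw [← Finset.sum_add_distrib]
      refine Finset.sum_le_sum fun i _ => ?_
      simp only [Pi.sub_apply]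
      have := abs_sub_abs_le_abs_sub (((n : ℝ) • x) i) (rv (fl n x) i)
      rw [abs_sub_comm] at this
      linarith
    have h6 : nr ((n : ℝ) • x) = n * nr x := by
      unfold nr
      rw [Finset.mul_sum]
      refine Finset.sum_congr rfl fun i _ => ?_
      simp only [Pi.smul_apply, smul_eq_mul, abs_mul, abs_of_pos hn']
    have h7 : nr (rv (fl n x)) = n1 (fl n x) := rfl
    linarith
  have h8 : l * (a₀ * (n * nr x - d) - Real.log 2 / l) ≤ l * al P X l (fl n x) := by
    have h9 : a₀ * (n * nr x - d) ≤ a₀ * n1 (fl n x) := mul_le_mul_of_nonneg_left h3 ha₀.le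
    have h10 : l * (Real.log 2 / l) = Real.log 2 := by field_simp
    have h11 := mul_le_mul_of_nonneg_left h9 hl.le
    rw [mul_sub, h10]
    linarith
  have h12 := le_of_mul_le_mul_left h8 hl
  rw [le_div_iff₀ hn']
  refine le_trans (le_of_eq ?_) h12
  field_simp

/-- Herbst for the annealed passage time -/
theorem mm_le_al (h : Env P X ν a b) (hR : Reg P X a₀ c₀) (hac : a₀ ≤ c₀) (hl : 0 < l)
    (hl1 : l ≤ 1) (v : V d) : mm P X v ≤ al P X l v + hr a₀ c₀ b b * l * n1 v := by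
  have h1 := herbst_Z h hR hac hl.le hl1 v
  rw [Z_eq h hl v, Real.exp_le_exp] at h1
  have h2 : l * (mm P X v) ≤ l * (al P X l v + hr a₀ c₀ b b * l * n1 v) := by nlinarith
  exact le_of_mul_le_mul_left h2 hl

theorem b_nonneg (h : Env P X ν a b) : d = 0 ∨ 0 ≤ b := by
  rcases Nat.eq_zero_or_pos d with h0 | h0
  · exact Or.inl h0
  · right
    have := h.prob
    obtain ⟨ω⟩ := nonempty_of_isProbabilityMeasure P
    have h1 := h.bd (ed 0 (⟨0, h0⟩, true)) ω
    have h2 := h.apos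
    linarith

theorem uu_le_nl (h : Env P X ν a b) (hR : Reg P X a₀ c₀) (hac : a₀ ≤ c₀) (hl : 0 < l)
    (hl1 : l ≤ 1) (x : F d) : uu P X x ≤ nl P X l x + hr a₀ c₀ b b * l * nr x := by
  have ht : Tendsto (fun n : ℕ => (al P X l (fl n x)) / n +
      hr a₀ c₀ b b * l * (nr x + d / n)) atTop
      (𝓝 (nl P X l x + hr a₀ c₀ b b * l * (nr x + 0))) := by
    refine (tendsto_al h hl x).add (tendsto_const_nhds.mul (tendsto_const_nhds.add ?_))
    exact tendsto_const_div_atTop_nhds_zero_nat (d : ℝ)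
  rw [add_zero] at ht
  refine le_of_tendsto_of_tendsto (tendsto_tc (subM_mm h) x) ht ?_
  filter_upwards [eventually_gt_atTop 0] with n hn
  have hn' : (0 : ℝ) < n := Nat.cast_pos.2 hn
  have h1 := mm_le_al h hR hac hl hl1 (fl n x)
  have h2 : hr a₀ c₀ b b * l * n1 (fl n x) ≤ hr a₀ c₀ b b * l * (n * nr x + d) := by
    rcases b_nonneg h with h0 | h0
    · subst h0
      simp [n1, nr]
    · have := hr_nonneg (b := b) hR.1 hR.2.1 h0
      exact mul_le_mul_of_nonneg_left (n1_fl_le n x) (by positivity)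
  rw [div_le_iff₀ hn']
  have h3 : (al P X l (fl n x) / n + hr a₀ c₀ b b * l * (nr x + d / n)) * n =
      al P X l (fl n x) + hr a₀ c₀ b b * l * (n * nr x + d) := by
    field_simp
  rw [h3]
  linarith

/-- if the passage time is below `z` with probability at least `p`, its mean is not much larger -/
theorem mc_le_of_prob (h : Env P X ν a b) (hR : Reg P X a₀ c₀) (hac : a₀ ≤ c₀) (hB : b ≤ B)
    (S : Set (Edge d)) (x y : V d) (z p : ℝ)
    (hp : 0 < p) (hpz : p ≤ P.real {ω | T (cut S B (cf X ω)) x y ≤ z}) :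
    mc P X S B x y ≤ z + √(4 * hr a₀ c₀ b B * n1 (y - x) * Real.log (1 / p)) +
      2 * Real.log (1 / p) := by
  have := h.prob
  have hY := measurable_Tc h S B x y
  have hb : ∀ ω, |T (cut S B (cf X ω)) x y| ≤ B * n1 (y - x) := fun ω => by
    have h1 := Pool.Agent.Helper33.NP.T_cut_bd (h.cf_bd ω) hB S x y
    rw [abs_of_nonneg h1.1]
    exact h1.2
  have H : ∀ t : ℝ, 0 ≤ t → t ≤ 1 → ∫ ω, Real.exp (-(t * T (cut S B (cf X ω)) x y)) ∂P ≤
      Real.exp (-(t * mc P X S B x y) + t ^ 2 * (2 * hr a₀ c₀ b B * n1 (y - x)) / 2) := by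
    intro t ht ht1
    refine (herbst h hR hB S ht (l_le hR hac ht1) x y).trans (le_of_eq ?_)
    congr 1
    ring
  have hK : 0 ≤ 2 * hr a₀ c₀ b B * n1 (y - x) := by
    rcases b_nonneg h with h0 | h0
    · subst h0
      simp [n1]
    · have := hr_nonneg (b := b) hR.1 hR.2.1 (h0.trans hB)
      have := n1_nonneg (y - x)
      positivity
  have h1 := mean_le_lim hY hb hK one_pos H hp hpz
  refine h1.trans (le_of_eq ?_)
  rw [div_one]
  congr 3
  ring

theorem mm_le_of_Z (h : Env P X ν a b) (hR : Reg P X a₀ c₀) (hac : a₀ ≤ c₀) (hl : 0 < l)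
    (hl1 : l ≤ 1) (v : V d) (z c : ℝ) (hc : 0 < c) (hz : c ≤ Z P X l 0 v * Real.exp (l * z)) :
    mm P X v ≤ z + hr a₀ c₀ b b * l * n1 v + Real.log (1 / c) / l := by
  have h1 := herbst_Z h hR hac hl.le hl1 v
  have h2 : c ≤ Real.exp (-(l * mm P X v) + hr a₀ c₀ b b * l ^ 2 * n1 v + l * z) := by
    rw [Real.exp_add]
    exact hz.trans (mul_le_mul_of_nonneg_right h1 (Real.exp_pos _).le)
  have h3 : Real.log c ≤ -(l * mm P X v) + hr a₀ c₀ b b * l ^ 2 * n1 v + l * z :=
    (Real.log_le_iff_le_exp hc).2 h2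
  have h4 : Real.log (1 / c) = -Real.log c := by rw [one_div, Real.log_inv]
  rw [h4]
  have h5 : l * mm P X v ≤ l * (z + hr a₀ c₀ b b * l * n1 v + -Real.log c / l) := by
    have : l * (z + hr a₀ c₀ b b * l * n1 v + -Real.log c / l) =
        l * z + hr a₀ c₀ b b * l ^ 2 * n1 v - Real.log c := by
      field_simp
      ring
    rw [this]
    linarith
  exact le_of_mul_le_mul_left h5 hl

/-- the positive part of the fluctuation -/
theorem pos_part (h : Env P X ν a b) (hR : Reg P X a₀ c₀) (hac : a₀ ≤ c₀) (x y : V d) :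
    ∫ ω, max (T (cf X ω) x y - mm P X (y - x)) 0 ∂P ≤
      4 * √((hr a₀ c₀ b b + 1) * n1 (y - x)) := by
  have := h.prob
  have hY := measurable_T h x y
  have hb : ∀ ω, |T (cf X ω) x y| ≤ b * n1 (y - x) := fun ω => by
    rw [abs_of_nonneg (T_nonneg' (h.cf_bd ω) x y)]
    exact T_le (h.cf_bd ω) x y
  have hint := integral_T h x y
  have hTi := integrable_T h x y
  obtain ⟨L, hL⟩ := n1_eq_nat (y - x)
  rcases Nat.eq_zero_or_pos L with hL0 | hL0
  · have h1 : ∀ ω, max (T (cf X ω) x y - mm P X (y - x)) 0 = 0 := by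
      intro ω
      have h2 := T_le (h.cf_bd ω) x y
      have h3 := (subM_mm h).lo (y - x)
      rw [hL, hL0] at h2 h3
      refine max_eq_right ?_
      simp only [CharP.cast_eq_zero, mul_zero] at h2 h3
      linarith
    simp only [h1, integral_zero]
    positivity
  · have h0 : 1 ≤ n1 (y - x) := by
      rw [hL]
      exact_mod_cast hL0
    have hk0 : 0 ≤ hr a₀ c₀ b b := by
      rcases b_nonneg h with h1 | h1
      · subst h1
        simp only [n1, Finset.univ_eq_empty, Finset.sum_empty] at h0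
        linarith
      · exact hr_nonneg hR.1 hR.2.1 h1
    have hK1 : 1 ≤ 2 * (hr a₀ c₀ b b + 1) * n1 (y - x) := by nlinarith
    have hK : 0 < 2 * (hr a₀ c₀ b b + 1) * n1 (y - x) := by linarith
    have H : ∀ t : ℝ, 0 ≤ t → t ≤ 1 → ∫ ω, Real.exp (-(t * T (cf X ω) x y)) ∂P ≤
        Real.exp (-(t * ∫ ω, T (cf X ω) x y ∂P) +
          t ^ 2 * (2 * (hr a₀ c₀ b b + 1) * n1 (y - x)) / 2) := by
      intro t ht ht1
      rw [hint]
      have h1 := herbst_Z h hR hac ht ht1 (y - x)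
      rw [← Z_eq_zero_sub h t x y] at h1
      refine h1.trans (Real.exp_le_exp.2 ?_)
      have : 0 ≤ t ^ 2 * n1 (y - x) := by positivity
      nlinarith
    have hs1 : 1 / √(2 * (hr a₀ c₀ b b + 1) * n1 (y - x)) ≤ 1 := by
      rw [div_le_one (Real.sqrt_pos.2 hK)]
      exact Real.one_le_sqrt.2 hK1
    have h1 := abs_dev_lim hY hb hK hs1 H
    rw [hint] at h1
    have hi : Integrable (fun ω => T (cf X ω) x y - mm P X (y - x)) P :=
      hTi.sub (integrable_const _)
    have h2 : ∫ ω, max (T (cf X ω) x y - mm P X (y - x)) 0 ∂P =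
        (∫ ω, |T (cf X ω) x y - mm P X (y - x)| ∂P) / 2 := by
      have h3 : ∀ ω, max (T (cf X ω) x y - mm P X (y - x)) 0 =
          (|T (cf X ω) x y - mm P X (y - x)| + (T (cf X ω) x y - mm P X (y - x))) / 2 := by
        intro ω
        rcases le_total 0 (T (cf X ω) x y - mm P X (y - x)) with h4 | h4
        · rw [max_eq_left h4, abs_of_nonneg h4]; ring
        · rw [max_eq_right h4, abs_of_nonpos h4]; ring
      simp only [h3]
      rw [integral_div, integral_add hi.abs hi, integral_sub hTi (integrable_const _), hint]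
      simp
    rw [h2]
    have h5 : √(2 * (hr a₀ c₀ b b + 1) * n1 (y - x)) ≤
        2 * √((hr a₀ c₀ b b + 1) * n1 (y - x)) := by
      have h6 : (2 : ℝ) * √((hr a₀ c₀ b b + 1) * n1 (y - x)) =
          √(4 * ((hr a₀ c₀ b b + 1) * n1 (y - x))) := by
        rw [Real.sqrt_mul (by norm_num : (0 : ℝ) ≤ 4)]
        norm_num
      rw [h6]
      exact Real.sqrt_le_sqrt (by nlinarith)
    linarith

end Pool.Agent.Helper38.PB
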