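import Pool.Agent.Helper79.GR.DF

/-!
# Project PG+ (b) (MP_13b103_pr, general laws): Peierls regularity

`Reg P X a₀ c₀`: with probability at least `1 - exp (- c₀ L)` no walk from `x` with distinct edges
and at least `L` steps is cheaper than `a₀` per step.  `exists_reg`: for i.i.d. weights `Y` with
`ν (Iic 0) = 0` this holds for every family `X ≥ min Y 1` (for instance `min Y B + ε`), with
`a₀ = a₀ (ν, d, c₀)`.
-/

set_option autoImplicit false

namespace Pool.Agent.Helper38.PB

open MeasureTheory ProbabilityTheory Set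
open Pool.Agent.Helper79.GR

variable {Ω : Type*} [MeasurableSpace Ω] {d : ℕ} {P : Measure Ω} {X Y : Edge d → Ω → ℝ}
  {ν : Measure ℝ}

/-- there is a cheap walk with distinct edges of at least `L` steps from `x` -/
def Chp (X : Edge d → Ω → ℝ) (a₀ : ℝ) (x : V d) (L : ℕ) : Set Ω :=
  {ω | ∃ w : List (St d), L ≤ w.length ∧ (eds x w).Nodup ∧
    cost (cf X ω) x w < a₀ * w.length}

/-- Peierls regularity -/
def Reg (P : Measure Ω) (X : Edge d → Ω → ℝ) (a₀ c₀ : ℝ) : Prop :=
  0 < a₀ ∧ 0 < c₀ ∧ ∀ (x : V d) (L : ℕ), P (Chp X a₀ x L) ≤ ENNReal.ofReal (Real.exp (-(c₀ * L)))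

theorem measurableSet_Chp (hX : ∀ e, Measurable (X e)) (a₀ : ℝ) (x : V d) (L : ℕ) :
    MeasurableSet (Chp X a₀ x L) := by
  have h1 : Chp X a₀ x L = ⋃ w : List (St d), {ω | L ≤ w.length ∧ (eds x w).Nodup ∧
      cost (cf X ω) x w < a₀ * w.length} := by
    ext ω
    simp [Chp]
  rw [h1]
  refine MeasurableSet.iUnion fun w => ?_
  by_cases h : L ≤ w.length ∧ (eds x w).Nodup
  · have h2 : {ω | L ≤ w.length ∧ (eds x w).Nodup ∧ cost (cf X ω) x w < a₀ * w.length} =
        {ω | cost (cf X ω) x w < a₀ * w.length} := by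
      ext ω
      simp [h.1, h.2]
    rw [h2]
    refine measurableSet_lt ?_ measurable_const
    have h3 : (fun ω => cost (cf X ω) x w) = fun ω => ((eds x w).map fun e => X e ω).sum := by
      funext ω
      rw [cost_eq_sum]
      rfl
    rw [h3]
    generalize eds x w = l
    induction l with
    | nil => simp
    | cons e l ih =>
      simp only [List.map_cons, List.sum_cons]
      exact (hX e).add ih
  · have h2 : {ω | L ≤ w.length ∧ (eds x w).Nodup ∧ cost (cf X ω) x w < a₀ * w.length} = ∅ := by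
      ext ω
      simp only [Set.mem_ofPred_eq, mem_empty_iff_false, iff_false]
      rintro ⟨h3, h4, -⟩
      exact h ⟨h3, h4⟩
    rw [h2]
    exact MeasurableSet.empty

/-- all edges of a finite set are light -/
theorem all_light (hY : ∀ e, Measurable (Y e)) (hind : iIndepFun Y P) (hlaw : ∀ e, P.map (Y e) = ν)
    (s : Finset (Edge d)) (β : ℝ) : P {ω | ∀ e ∈ s, Y e ω < β} = ν (Iio β) ^ s.card := by
  classical
  have h1 := hind.measure_inter_preimage_eq_mul s (sets := fun _ => Iio β)
    (fun _ _ => measurableSet_Iio)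
  have h2 : {ω | ∀ e ∈ s, Y e ω < β} = ⋂ e ∈ s, Y e ⁻¹' Iio β := by
    ext ω
    simp
  rw [h2, h1]
  rw [Finset.prod_congr rfl fun e _ => show P (Y e ⁻¹' Iio β) = ν (Iio β) by
    rw [← hlaw e, Measure.map_apply (hY e) measurableSet_Iio]]
  rw [Finset.prod_const]

/-- half of the edges of a given walk are light -/
theorem one_walk [IsProbabilityMeasure ν] (hY : ∀ e, Measurable (Y e)) (hind : iIndepFun Y P)
    (hlaw : ∀ e, P.map (Y e) = ν) {β r : ℝ} (hr0 : 0 < r) (hr : ν.real (Iio β) ≤ r ^ 2)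
    (x : V d) (w : List (St d)) (hw : (eds x w).Nodup) :
    P {ω | (w.length : ℝ) < 2 * ((eds x w).countP (fun e => decide (Y e ω < β)) : ℝ)} ≤
      ENNReal.ofReal ((2 * r) ^ w.length) := by
  classical
  set m := w.length with hm
  let s₀ : Finset (Edge d) := (eds x w).toFinset
  have hs₀ : s₀.card = m := by
    rw [List.toFinset_card_of_nodup hw, length_eds]
  have hsub : {ω | (m : ℝ) < 2 * ((eds x w).countP (fun e => decide (Y e ω < β)) : ℝ)} ⊆
      ⋃ s ∈ s₀.powerset.filter (fun s => (m : ℝ) < 2 * (s.card : ℝ)), {ω | ∀ e ∈ s, Y e ω < β} := by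
    intro ω hω
    rw [mem_iUnion₂]
    refine ⟨s₀.filter (fun e => Y e ω < β), ?_, ?_⟩
    · rw [Finset.mem_filter, Finset.mem_powerset]
      refine ⟨Finset.filter_subset _ _, ?_⟩
      have h1 : (eds x w).countP (fun e => decide (Y e ω < β)) =
          (s₀.filter (fun e => Y e ω < β)).card := by
        rw [List.countP_eq_length_filter, ← List.toFinset_card_of_nodup (hw.filter _)]
        congr 1
        ext e
        simp [s₀]
      have h2 : (m : ℝ) < 2 * ((eds x w).countP (fun e => decide (Y e ω < β)) : ℝ) := hω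
      rwa [h1] at h2
    · intro e he
      exact (Finset.mem_filter.1 he).2
  have hp1 : ν.real (Iio β) ≤ 1 := measureReal_le_one
  have hp0 : 0 ≤ ν.real (Iio β) := measureReal_nonneg
  have hone : ∀ s ∈ s₀.powerset.filter (fun s => (m : ℝ) < 2 * (s.card : ℝ)),
      P {ω | ∀ e ∈ s, Y e ω < β} ≤ ENNReal.ofReal (r ^ m) := by
    intro s hs
    rw [Finset.mem_filter] at hs
    have h5 : m ≤ 2 * s.card := by
      have := hs.2
      exact_mod_cast this.le
    rw [all_light hY hind hlaw s β, ← ofReal_measureReal (μ := ν) (s := Iio β),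
      ← ENNReal.ofReal_pow hp0]
    refine ENNReal.ofReal_le_ofReal ?_
    rcases le_total r 1 with h1 | h1
    · calc ν.real (Iio β) ^ s.card ≤ (r ^ 2) ^ s.card := pow_le_pow_left₀ hp0 hr _
        _ = r ^ (2 * s.card) := (pow_mul r 2 _).symm
        _ ≤ r ^ m := pow_le_pow_of_le_one hr0.le h1 h5
    · exact (pow_le_one₀ hp0 hp1).trans (one_le_pow₀ h1)
  refine (measure_mono hsub).trans ((measure_biUnion_finset_le _ _).trans ?_)
  refine (Finset.sum_le_sum hone).trans ?_
  rw [Finset.sum_const, nsmul_eq_mul, mul_pow, ENNReal.ofReal_mul (by positivity)]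
  refine mul_le_mul_left ?_ _
  have h4 : (s₀.powerset.filter (fun s => (m : ℝ) < 2 * (s.card : ℝ))).card ≤ 2 ^ m := by
    refine (Finset.card_filter_le _ _).trans ?_
    rw [Finset.card_powerset, hs₀]
  rw [show (2 : ℝ) ^ m = ((2 ^ m : ℕ) : ℝ) by push_cast; rfl, ENNReal.ofReal_natCast]
  exact_mod_cast h4

/-- a walk with at most half of its edges light is not cheap -/
theorem not_cheap {c : Edge d → ℝ} {β : ℝ} (h0 : ∀ e, 0 ≤ c e) (x : V d) (w : List (St d))
    (h : 2 * ((eds x w).countP (fun e => decide (c e < β)) : ℝ) ≤ w.length) (hβ : 0 ≤ β) :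
    β / 2 * w.length ≤ cost c x w := by
  rw [cost_eq_sum]
  have h1 : ∀ l : List (Edge d), β * ((l.length : ℝ) - (l.countP (fun e => decide (c e < β)) : ℝ)) ≤
      (l.map c).sum := by
    intro l
    induction l with
    | nil => simp
    | cons e l ih =>
      simp only [List.map_cons, List.sum_cons, List.length_cons, List.countP_cons]
      by_cases he : c e < β
      · simp only [he, decide_true, if_true]
        push_cast
        have := h0 e
        linarith
      · simp only [he, decide_false]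
        push_cast
        have := not_lt.1 he
        simp only [add_zero]
        push_cast
        nlinarith
  have h2 := h1 (eds x w)
  rw [length_eds] at h2
  refine le_trans ?_ h2
  nlinarith

theorem reg_of [IsProbabilityMeasure P] [IsProbabilityMeasure ν] (hY : ∀ e, Measurable (Y e))
    (hind : iIndepFun Y P) (hlaw : ∀ e, P.map (Y e) = ν) (hX0 : ∀ e ω, 0 ≤ X e ω)
    (hXY : ∀ e ω, min (Y e ω) 1 ≤ X e ω) {β r c₀ : ℝ} (hβ : 0 < β) (hβ1 : β ≤ 1) (hr0 : 0 < r)
    (hr : ν.real (Iio β) ≤ r ^ 2) (hc₀ : 0 < c₀) (hrc : 4 * (d + 1) * r ≤ Real.exp (-c₀) / 4) :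
    Reg P X (β / 2) c₀ := by
  classical
  refine ⟨by positivity, hc₀, fun x L => ?_⟩
  rcases Nat.eq_zero_or_pos L with rfl | hL
  · simp only [CharP.cast_eq_zero, mul_zero, neg_zero, Real.exp_zero, ENNReal.ofReal_one]
    exact prob_le_one
  have hexp : 0 < Real.exp (-c₀) := Real.exp_pos _
  have hsub : Chp X (β / 2) x L ⊆
      ⋃ m : ℕ, ⋃ f : Fin (m + L) → St d, {ω | (eds x (List.ofFn f)).Nodup ∧
        ((List.ofFn f).length : ℝ) <
          2 * ((eds x (List.ofFn f)).countP (fun e => decide (Y e ω < β)) : ℝ)} := by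
    rintro ω ⟨w, h1, h2, h3⟩
    rw [mem_iUnion]
    obtain ⟨m, hm⟩ := Nat.exists_eq_add_of_le h1
    refine ⟨m, ?_⟩
    rw [mem_iUnion]
    have hm' : w.length = m + L := by omega
    refine ⟨fun i => w.get (i.cast hm'.symm), ?_⟩
    have h4 : List.ofFn (fun i : Fin (m + L) => w.get (i.cast hm'.symm)) = w := by
      apply List.ext_getElem
      · rw [List.length_ofFn, hm']
      · intro n h5 h6
        rw [List.getElem_ofFn]
        rfl
    rw [Set.mem_ofPred_eq, h4]
    refine ⟨h2, ?_⟩
    by_contra h5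
    rw [not_lt] at h5
    have h6 : (eds x w).countP (fun e => decide (cf X ω e < β)) ≤
        (eds x w).countP (fun e => decide (Y e ω < β)) := by
      refine List.countP_mono_left fun e _ he => ?_
      simp only [decide_eq_true_eq] at he ⊢
      have h7 : X e ω < β := he
      have h8 := hXY e ω
      rcases le_total (Y e ω) 1 with h9 | h9
      · rw [min_eq_left h9] at h8
        exact h8.trans_lt h7
      · rw [min_eq_right h9] at h8
        linarith
    have h7 := not_cheap (c := cf X ω) (β := β) (fun e => hX0 e ω) x w (by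
      have : ((eds x w).countP (fun e => decide (cf X ω e < β)) : ℝ) ≤
        ((eds x w).countP (fun e => decide (Y e ω < β)) : ℝ) := by exact_mod_cast h6
      linarith) hβ.le
    linarith
  refine (measure_mono hsub).trans ((measure_iUnion_le _).trans ?_)
  have hq0 : 0 ≤ 4 * (d + 1) * r := by positivity
  have hm : ∀ m : ℕ, P (⋃ f : Fin (m + L) → St d, {ω | (eds x (List.ofFn f)).Nodup ∧
        ((List.ofFn f).length : ℝ) <
          2 * ((eds x (List.ofFn f)).countP (fun e => decide (Y e ω < β)) : ℝ)}) ≤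
      ENNReal.ofReal (Real.exp (-(c₀ * L)) / 2 * (1 / 4) ^ m) := by
    intro m
    refine (measure_iUnion_le _).trans ?_
    rw [tsum_fintype]
    have h1 : ∀ f : Fin (m + L) → St d, P {ω | (eds x (List.ofFn f)).Nodup ∧
        ((List.ofFn f).length : ℝ) <
          2 * ((eds x (List.ofFn f)).countP (fun e => decide (Y e ω < β)) : ℝ)} ≤
        ENNReal.ofReal ((2 * r) ^ (m + L)) := by
      intro f
      by_cases hf : (eds x (List.ofFn f)).Nodup
      · have h2 := one_walk hY hind hlaw hr0 hr x (List.ofFn f) hf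
        rw [List.length_ofFn] at h2
        refine (measure_mono ?_).trans h2
        rintro ω ⟨-, h3⟩
        rw [List.length_ofFn] at h3
        exact h3
      · have h2 : {ω | (eds x (List.ofFn f)).Nodup ∧ ((List.ofFn f).length : ℝ) <
            2 * ((eds x (List.ofFn f)).countP (fun e => decide (Y e ω < β)) : ℝ)} = ∅ := by
          rw [eq_empty_iff_forall_notMem]
          rintro ω ⟨h3, -⟩
          exact hf h3
        rw [h2, measure_empty]
        exact zero_le
    refine (Finset.sum_le_sum fun f _ => h1 f).trans ?_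
    rw [Finset.sum_const, Finset.card_univ, Fintype.card_fun, Fintype.card_fin, nsmul_eq_mul,
      Fintype.card_prod, Fintype.card_fin, Fintype.card_bool, ← ENNReal.ofReal_natCast,
      ← ENNReal.ofReal_mul (Nat.cast_nonneg _)]
    refine ENNReal.ofReal_le_ofReal ?_
    push_cast
    rw [← mul_pow]
    calc ((d : ℝ) * 2 * (2 * r)) ^ (m + L) ≤ (4 * (d + 1) * r) ^ (m + L) := by
          refine pow_le_pow_left₀ (by positivity) ?_ _
          nlinarith
      _ ≤ (Real.exp (-c₀) / 4) ^ (m + L) := pow_le_pow_left₀ hq0 hrc _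
      _ = Real.exp (-c₀) ^ L * (1 / 4) ^ L * (Real.exp (-c₀) / 4) ^ m := by
          rw [pow_add, ← mul_pow]
          ring
      _ ≤ Real.exp (-c₀) ^ L * (1 / 2) * (1 / 4) ^ m := by
          have h6 : ((1 : ℝ) / 4) ^ L ≤ 1 / 2 := by
            calc ((1 : ℝ) / 4) ^ L ≤ (1 / 4) ^ 1 :=
                  pow_le_pow_of_le_one (by norm_num) (by norm_num) hL
              _ ≤ 1 / 2 := by norm_num
          have h7 : (Real.exp (-c₀) / 4) ^ m ≤ (1 / 4) ^ m := by
            refine pow_le_pow_left₀ (by positivity) ?_ _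
            have : Real.exp (-c₀) ≤ 1 := Real.exp_le_one_iff.2 (by linarith)
            linarith
          exact mul_le_mul (mul_le_mul_of_nonneg_left h6 (by positivity)) h7 (by positivity)
            (by positivity)
      _ = Real.exp (-(c₀ * L)) / 2 * (1 / 4) ^ m := by
          rw [← Real.exp_nat_mul]
          congr 1
          rw [show (L : ℝ) * -c₀ = -(c₀ * L) by ring]
          ring
  refine (ENNReal.tsum_le_tsum hm).trans ?_
  rw [← ENNReal.ofReal_tsum_of_nonneg (fun m => by positivity)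
    ((summable_geometric_of_lt_one (by norm_num) (by norm_num)).mul_left _)]
  refine ENNReal.ofReal_le_ofReal ?_
  rw [tsum_mul_left, tsum_geometric_of_lt_one (by norm_num) (by norm_num)]
  have : 0 < Real.exp (-(c₀ * L)) := Real.exp_pos _
  norm_num
  linarith

/-- **Peierls regularity for all laws without mass on `(- ∞, 0]`** -/
theorem exists_reg (d : ℕ) (ν : Measure ℝ) [IsProbabilityMeasure ν] (h0 : ν (Iic 0) = 0) {c₀ : ℝ}
    (hc₀ : 0 < c₀) :
    ∃ a₀ : ℝ, 0 < a₀ ∧ a₀ ≤ 1 ∧ ∀ (Ω : Type) (_ : MeasurableSpace Ω) (P : Measure Ω)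
      (X Y : Edge d → Ω → ℝ), IsProbabilityMeasure P → (∀ e, Measurable (Y e)) → iIndepFun Y P →
      (∀ e, P.map (Y e) = ν) → (∀ e ω, 0 ≤ X e ω) → (∀ e ω, min (Y e ω) 1 ≤ X e ω) →
      Reg P X a₀ c₀ := by
  set r : ℝ := Real.exp (-c₀) / (16 * (d + 1)) with hr
  have hr0 : 0 < r := by positivity
  have h1 : Filter.Tendsto (fun n : ℕ => ν (Iio (1 / ((n : ℝ) + 1)))) Filter.atTop
      (nhds (ν (⋂ n : ℕ, Iio (1 / ((n : ℝ) + 1))))) := by
    refine tendsto_measure_iInter_atTop (fun n => measurableSet_Iio.nullMeasurableSet) ?_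
      ⟨0, measure_ne_top _ _⟩
    intro m n hmn
    refine Iio_subset_Iio ?_
    have : (m : ℝ) ≤ n := by exact_mod_cast hmn
    gcongr
  have h2 : (⋂ n : ℕ, Iio (1 / ((n : ℝ) + 1))) = Iic (0 : ℝ) := by
    ext t
    simp only [mem_iInter, mem_Iio, mem_Iic]
    constructor
    · intro h
      by_contra h3
      rw [not_le] at h3
      obtain ⟨n, hn⟩ := exists_nat_one_div_lt h3
      exact absurd (h n) (not_lt.2 hn.le)
    · intro h n
      exact lt_of_le_of_lt h (by positivity)
  rw [h2, h0] at h1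
  have h3 : ∀ᶠ n : ℕ in Filter.atTop, ν (Iio (1 / ((n : ℝ) + 1))) < ENNReal.ofReal (r ^ 2) :=
    h1.eventually_lt_const (ENNReal.ofReal_pos.2 (by positivity))
  obtain ⟨n, hn⟩ := h3.exists
  refine ⟨1 / ((n : ℝ) + 1) / 2, by positivity, ?_, ?_⟩
  · have : (1 : ℝ) / ((n : ℝ) + 1) ≤ 1 := by
      rw [div_le_one (by positivity)]
      have : (0 : ℝ) ≤ n := Nat.cast_nonneg _
      linarith
    linarith
  intro Ω _ P X Y hP hY hind hlaw hX0 hXY
  refine reg_of hY hind hlaw hX0 hXY (by positivity) ?_ hr0 ?_ hc₀ ?_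
  · rw [div_le_one (by positivity)]
    have : (0 : ℝ) ≤ n := Nat.cast_nonneg _
    linarith
  · have := ENNReal.toReal_mono ENNReal.ofReal_ne_top hn.le
    rwa [ENNReal.toReal_ofReal (by positivity)] at this
  · rw [hr]
    refine le_of_eq ?_
    field_simp
    ring

end Pool.Agent.Helper38.PB
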