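import Pool.Agent.Helper38.PB.Herb
import Pool.Agent.Helper49.PG.GB1

/-!
# Project GP, block B: Herbst's bound in the form of `Helper51/GP/B.lean`
-/

set_option autoImplicit false

namespace Pool.Agent.Helper38.PB

open MeasureTheory ProbabilityTheory Filter Pool.Agent.Helper79.GR Pool.Agent.Helper79.GQ
open Pool.Agent.Helper51.NP

variable {Ω : Type*} [MeasurableSpace Ω] {P : Measure Ω} {d : ℕ} {X : Edge d → Ω → ℝ}
  {ν : Measure ℝ} {a δ b B l : ℝ}

theorem hr_GP (ha : 0 < a) (ha1 : a ≤ 1) (hb : 1 ≤ b) (hB : b ≤ B) :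
    hr a 1 b B ≤ Pool.Agent.Helper51.GP.hr a * B ^ 3 := by
  have h1 : (2 : ℝ) ≤ Real.exp 1 := by
    have := Real.add_one_le_exp (1 : ℝ)
    linarith
  have h2 : 1 / (Real.exp 1 - 1) ≤ 1 := by
    rw [div_le_one (by linarith)]
    linarith
  have h3 : b ^ 2 ≤ B ^ 2 := pow_le_pow_left₀ (by linarith) hB 2
  have hB1 : 1 ≤ B := hb.trans hB
  have ha' : 1 ≤ 1 / a := by rwa [le_div_iff₀ ha, one_mul]
  have h4 : B / a + 1 + 1 / (Real.exp 1 - 1) ≤ 3 / a * B := by
    have e1 : B / a = 1 / a * B := by ring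
    have e2 : 3 / a * B = 3 * (1 / a * B) := by ring
    rw [e1, e2]
    nlinarith
  have h5 : 0 ≤ B / a + 1 + 1 / (Real.exp 1 - 1) := by
    have : 0 < Real.exp 1 - 1 := by linarith
    positivity
  have h6 : b ^ 2 * (B / a + 1 + 1 / (Real.exp 1 - 1)) ≤ B ^ 2 * (3 / a * B) :=
    mul_le_mul h3 h4 h5 (by positivity)
  unfold hr Pool.Agent.Helper51.GP.hr
  have h7 : B ^ 2 * (3 / a * B) = 3 * (1 / a * B ^ 3) := by ring
  have h8 : 2 / a * B ^ 3 = 2 * (1 / a * B ^ 3) := by ring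
  have h9 : 0 ≤ 1 / a * B ^ 3 := by positivity
  rw [h7] at h6
  rw [h8]
  linarith

/-- **Herbst's bound with Peierls regularity** -/
theorem herbst_GP (h : Env P X ν δ b) (hR : Pool.Agent.Helper51.GP.Reg P X a) (hb : 1 ≤ b)
    (hB : b ≤ B) (S : Set (Edge d)) (hl : 0 ≤ l) (hl1 : l ≤ 1) (x y : V d) :
    Zc P X S B l x y ≤
      Real.exp (-(l * mc P X S B x y) +
        Pool.Agent.Helper51.GP.hr a * B ^ 3 * l ^ 2 * (n1 (y - x) + 1)) := by
  have hR' : Reg P X a 1 := Pool.Agent.Helper49.GP.toReg h hR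
  refine (herbst h hR' hB S hl (by nlinarith [hR.ale, hR.apos]) x y).trans
    (Real.exp_le_exp.2 ?_)
  have h1 := hr_GP hR.apos hR.ale hb hB
  have h2 : 0 ≤ hr a 1 b B := by
    have : (1 : ℝ) < Real.exp 1 := Real.one_lt_exp_iff.2 one_pos
    have h3 : 0 < Real.exp 1 - 1 := by linarith
    have h4 := hR.apos
    have h5 : 0 ≤ B := by linarith
    unfold hr
    positivity
  have h3 := n1_nonneg (y - x)
  have h4 : hr a 1 b B * l ^ 2 * n1 (y - x) ≤
      Pool.Agent.Helper51.GP.hr a * B ^ 3 * l ^ 2 * (n1 (y - x) + 1) := by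
    refine mul_le_mul (mul_le_mul_of_nonneg_right h1 (sq_nonneg l)) (by linarith) h3 ?_
    exact mul_nonneg (h2.trans h1) (sq_nonneg l)
  linarith

end Pool.Agent.Helper38.PB
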