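import Pool.Agent.Helper94.PG.HerbstI

/-!
# Project PG+ (b), block B: Herbst's bound in a limited range of the parameter

As in `Helper94/PG/Herbst`, `Helper94/PG/HerbstI` (by helper94), but the sum of the squares of the
increments is only bounded in the mean with the weight `exp (- s Z)`, `0 < s ≤ t₀`.
-/

set_option autoImplicit false

namespace Pool.Agent.Helper38.PB

open MeasureTheory Real ProbabilityTheory Filter Topology Pool.Agent.Helper94.PG

section

variable {A : Type*} [MeasurableSpace A] {μ : Measure A} [IsProbabilityMeasure μ]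

theorem herbst_abs_lim {Y : A → ℝ} (hY : Measurable Y) {M K : ℝ} (hb : ∀ x, |Y x| ≤ M) {t₀ : ℝ}
    (hent : ∀ t : ℝ, 0 < t → t ≤ t₀ → (∫ x, exp (t * Y x) * (t * Y x) ∂μ) -
      (∫ x, exp (t * Y x) ∂μ) * log (∫ x, exp (t * Y x) ∂μ) ≤
        t ^ 2 * K / 2 * ∫ x, exp (t * Y x) ∂μ) {t : ℝ} (ht : 0 ≤ t)
    (ht₀ : t ≤ t₀) :
    ∫ x, exp (t * Y x) ∂μ ≤ exp (t * (∫ x, Y x ∂μ) + t ^ 2 * K / 2) := by
  have hint : ∀ s : ℝ, Integrable (fun x => exp (s * Y x)) μ := by
    intro s
    refine Integrable.of_bound (by fun_prop) (exp (|s| * M)) (Eventually.of_forall fun x => ?_)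
    rw [Real.norm_eq_abs, abs_exp]
    refine exp_le_exp.2 ((le_abs_self _).trans ?_)
    rw [abs_mul]
    exact mul_le_mul_of_nonneg_left (hb x) (abs_nonneg _)
  have huniv : integrableExpSet Y μ = Set.univ := by
    ext s
    simp only [integrableExpSet, Set.mem_ofPred_eq, Set.mem_univ, iff_true]
    exact hint s
  have hin : ∀ s, s ∈ interior (integrableExpSet Y μ) := by
    intro s
    rw [huniv]
    simp
  have hMpos : ∀ s, 0 < mgf Y μ s := fun s => mgf_pos (hint s)
  have hder : ∀ s, HasDerivAt (mgf Y μ) (∫ x, Y x * exp (s * Y x) ∂μ) s := fun s =>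
    hasDerivAt_mgf (hin s)
  have hcg : ∀ s, HasDerivAt (fun u => log (mgf Y μ u))
      ((∫ x, Y x * exp (s * Y x) ∂μ) / mgf Y μ s) s := fun s => (hder s).log (hMpos s).ne'
  set m := ∫ x, Y x ∂μ with hm
  set ψ : ℝ → ℝ := fun s => log (mgf Y μ s) / s - m - s * K / 2 with hψ
  have hψd : ∀ s, 0 < s → HasDerivAt ψ
      (((∫ x, Y x * exp (s * Y x) ∂μ) / mgf Y μ s * s - log (mgf Y μ s) * 1) / s ^ 2 - 0
        - 1 * K / 2) s := by
    intro s hs
    have h1 := ((hcg s).div (hasDerivAt_id s) hs.ne').sub (hasDerivAt_const s m)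
    have h2 := ((hasDerivAt_id s).mul_const K).div_const 2
    exact h1.sub h2
  have hanti : AntitoneOn ψ (Set.Ioc 0 t₀) := by
    refine antitoneOn_of_deriv_nonpos (convex_Ioc 0 t₀)
      (fun s hs => (hψd s hs.1).continuousAt.continuousWithinAt)
      (fun s hs => ?_) (fun s hs => ?_)
    · rw [interior_Ioc] at hs
      exact (hψd s hs.1).differentiableAt.differentiableWithinAt
    · rw [interior_Ioc] at hs
      have hs' : 0 < s := hs.1
      rw [(hψd s hs').deriv]
      have h1 := hent s hs' hs.2.le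
      have h2 : ∫ x, exp (s * Y x) * (s * Y x) ∂μ = s * ∫ x, Y x * exp (s * Y x) ∂μ := by
        rw [← integral_const_mul]
        congr 1
        funext x
        ring
      rw [h2] at h1
      have h3 : ∫ x, exp (s * Y x) ∂μ = mgf Y μ s := rfl
      rw [h3] at h1
      have h4 := hMpos s
      have h5 : (∫ x, Y x * exp (s * Y x) ∂μ) / mgf Y μ s * s - log (mgf Y μ s) ≤
          s ^ 2 * K / 2 := by
        rw [div_mul_eq_mul_div, sub_le_iff_le_add, div_le_iff₀ h4]
        linarith
      have h6 : ((∫ x, Y x * exp (s * Y x) ∂μ) / mgf Y μ s * s - log (mgf Y μ s)) / s ^ 2 ≤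
          K / 2 := by
        rw [div_le_iff₀ (by positivity)]
        linarith
      rw [mul_one]
      linarith
  have hlim : Tendsto (fun s => log (mgf Y μ s) / s) (𝓝[>] 0) (𝓝 m) := by
    have h1 := hcg 0
    rw [hasDerivAt_iff_tendsto_slope_zero] at h1
    have h2 : (∫ x, Y x * exp (0 * Y x) ∂μ) / mgf Y μ 0 = m := by
      simp [hm]
    rw [h2] at h1
    have h3 : Tendsto (fun s : ℝ => s⁻¹ • (log (mgf Y μ (0 + s)) - log (mgf Y μ 0))) (𝓝[>] 0)
        (𝓝 m) := h1.mono_left (nhdsWithin_mono _ fun x hx => ne_of_gt hx)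
    refine h3.congr fun s => ?_
    simp only [zero_add, mgf_zero, log_one, sub_zero, smul_eq_mul]
    rw [inv_mul_eq_div]
  have hlim2 : Tendsto ψ (𝓝[>] 0) (𝓝 0) := by
    have h1 : Tendsto (fun s : ℝ => s * K / 2) (𝓝[>] 0) (𝓝 0) := by
      have : Tendsto (fun s : ℝ => s * K / 2) (𝓝 0) (𝓝 (0 * K / 2)) := by
        exact (tendsto_id.mul_const K).div_const 2
      simpa using this.mono_left nhdsWithin_le_nhds
    have h2 := (hlim.sub_const m).sub h1
    simpa [hψ] using h2
  rcases ht.eq_or_lt with rfl | ht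
  · simp
  have hle : ψ t ≤ 0 := by
    refine ge_of_tendsto hlim2 ?_
    filter_upwards [Ioo_mem_nhdsGT ht] with s hs
    exact hanti ⟨hs.1, hs.2.le.trans ht₀⟩ ⟨ht, ht₀⟩ hs.2.le
  have h3 : log (mgf Y μ t) ≤ t * m + t ^ 2 * K / 2 := by
    simp only [hψ] at hle
    have h4 : log (mgf Y μ t) / t ≤ m + t * K / 2 := by linarith
    rw [div_le_iff₀ ht] at h4
    linarith
  have h5 : mgf Y μ t ≤ exp (t * m + t ^ 2 * K / 2) := by
    rw [← exp_log (hMpos t)]
    exact exp_le_exp.2 h3
  exact h5

end

/-- Herbst's bound for a function of finitely many independent coordinates -/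
theorem herbst_fin_lim {E : Type*} [MeasurableSpace E] {n : ℕ} (ν : Fin n → Measure E)
    [∀ i, IsProbabilityMeasure (ν i)] {M K t₀ : ℝ} (Z : (Fin n → E) → ℝ)
    (Zp : Fin n → (Fin n → E) → ℝ) (hZ : Measurable Z) (hZp : ∀ i, Measurable (Zp i))
    (hb : ∀ x, |Z x| ≤ M) (hbp : ∀ i x, |Zp i x| ≤ M)
    (hi : ∀ i x t, Zp i (Function.update x i t) = Zp i x) (hle : ∀ i x, Z x ≤ Zp i x)
    (hK : ∀ s : ℝ, 0 < s → s ≤ t₀ →
      ∫ x, exp (-(s * Z x)) * ∑ i, (Zp i x - Z x) ^ 2 ∂(Measure.pi ν) ≤
        K * ∫ x, exp (-(s * Z x)) ∂(Measure.pi ν))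
    {t : ℝ} (ht : 0 ≤ t) (ht₀ : t ≤ t₀) :
    ∫ x, exp (-(t * Z x)) ∂(Measure.pi ν) ≤
      exp (-(t * ∫ x, Z x ∂(Measure.pi ν)) + t ^ 2 * K / 2) := by
  have h := herbst_abs_lim (μ := Measure.pi ν) (Y := fun x => - Z x) (M := M) (K := K) hZ.neg
    (t₀ := t₀) (fun x => by rw [abs_neg]; exact hb x) ?_ ht ht₀
  · simp only [mul_neg, integral_neg] at h
    exact h
  · intro s hs hs₀
    simp only [mul_neg]
    have hE := ent_fin n ν (exp (-(s * M))) (exp (s * M)) (exp_pos _)
      (fun x => exp (-(s * Z x))) (fun i x => exp (-(s * Zp i x))) (by fun_prop)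
      (fun i => by have := hZp i; fun_prop) (fun x => ?_) (fun i x => ?_) (fun i x t => ?_)
    · simp only [log_exp, mul_neg] at hE
      refine hE.trans ?_
      have bI : ∀ F : (Fin n → E) → ℝ, Measurable F → ∀ C : ℝ, (∀ x, |F x| ≤ C) →
          Integrable F (Measure.pi ν) := fun F hF C hC =>
        Integrable.of_bound hF.aestronglyMeasurable C (Eventually.of_forall hC)
      have eb : ∀ z : ℝ, |z| ≤ M → |exp (-(s * z))| ≤ exp (s * M) := by
        intro z hz
        rw [abs_exp]
        refine exp_le_exp.2 ?_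
        have := (abs_le.1 hz).1
        nlinarith
      have i1 : Integrable (fun x => exp (-(s * Z x))) (Measure.pi ν) :=
        bI _ (by fun_prop) _ fun x => eb _ (hb x)
      have i2 : ∀ i, Integrable (fun x => exp (-(s * Zp i x))) (Measure.pi ν) := fun i =>
        bI _ (by have := hZp i; fun_prop) _ fun x => eb _ (hbp i x)
      have i3 : ∀ z : (Fin n → E) → ℝ, Measurable z → (∀ x, |z x| ≤ M) →
          Integrable (fun x => exp (-(s * Z x)) * (s * z x)) (Measure.pi ν) := by
        intro z hz hzb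
        refine bI _ (by fun_prop) (exp (s * M) * (s * M)) fun x => ?_
        rw [abs_mul]
        refine mul_le_mul (eb _ (hb x)) ?_ (abs_nonneg _) (exp_pos _).le
        rw [abs_mul, abs_of_pos hs]
        exact mul_le_mul_of_nonneg_left (hzb x) hs.le
      have i4 : ∀ i, Integrable (fun x => exp (-(s * Z x)) * (Zp i x - Z x) ^ 2)
          (Measure.pi ν) := by
        intro i
        refine bI _ (by have := hZp i; fun_prop) (exp (s * M) * (2 * M) ^ 2) fun x => ?_
        rw [abs_mul]
        refine mul_le_mul (eb _ (hb x)) ?_ (abs_nonneg _) (exp_pos _).le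
        rw [abs_of_nonneg (sq_nonneg _)]
        have h7 := abs_le.1 (hb x)
        have h8 := abs_le.1 (hbp i x)
        refine sq_le_sq' ?_ ?_ <;> linarith [h7.1, h7.2, h8.1, h8.2]
      calc ∑ i, ∫ x, (-(exp (-(s * Z x)) * (s * Z x)) - -(exp (-(s * Z x)) * (s * Zp i x)) -
            exp (-(s * Z x)) + exp (-(s * Zp i x))) ∂(Measure.pi ν)
          ≤ ∑ i, ∫ x, s ^ 2 / 2 * (exp (-(s * Z x)) * (Zp i x - Z x) ^ 2) ∂(Measure.pi ν) := by
            refine Finset.sum_le_sum fun i _ => ?_
            refine integral_mono ((((i3 Z hZ hb).neg.sub (i3 _ (hZp i) (hbp i)).neg).sub i1).add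
              (i2 i)) ((i4 i).const_mul _) fun x => ?_
            have := pt (f := -(s * Z x)) (g := -(s * Zp i x)) (by
              have := mul_le_mul_of_nonneg_left (hle i x) hs.le
              linarith)
            simp only [mul_neg] at this
            refine this.trans (le_of_eq ?_)
            ring
        _ = s ^ 2 / 2 * ∫ x, exp (-(s * Z x)) * ∑ i, (Zp i x - Z x) ^ 2 ∂(Measure.pi ν) := by
            simp only [Finset.mul_sum]
            rw [integral_finsetSum _ fun i _ => i4 i]
            simp only [integral_const_mul, Finset.mul_sum]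
        _ ≤ s ^ 2 / 2 * (K * ∫ x, exp (-(s * Z x)) ∂(Measure.pi ν)) :=
            mul_le_mul_of_nonneg_left (hK s hs hs₀) (by positivity)
        _ = s ^ 2 * K / 2 * ∫ x, exp (-(s * Z x)) ∂(Measure.pi ν) := by ring
    · have := abs_le.1 (hb x)
      constructor <;> refine exp_le_exp.2 ?_ <;> nlinarith
    · have := abs_le.1 (hbp i x)
      constructor <;> refine exp_le_exp.2 ?_ <;> nlinarith
    · simp only [hi]


section

variable {Ω : Type*} [MeasurableSpace Ω] {P : Measure Ω} [IsProbabilityMeasure P]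
  {I : Type*} [DecidableEq I]

theorem herbst_lim {X : I → Ω → ℝ} (hX : ∀ i, Measurable (X i)) (hind : iIndepFun X P) {a b : ℝ}
    (hbd : ∀ i ω, a ≤ X i ω ∧ X i ω ≤ b) (S : Finset I) {Z : (I → ℝ) → ℝ} (hZm : Measurable Z)
    (hS : ∀ c c', Box a b c → Box a b c' → (∀ i ∈ S, c i = c' i) → Z c = Z c') {M K t₀ : ℝ}
    (hM : ∀ c, Box a b c → |Z c| ≤ M)
    (hmono : ∀ c, Box a b c → ∀ i ∈ S, Z c ≤ Z (Function.update c i b))
    (hK : ∀ s : ℝ, 0 < s → s ≤ t₀ →
      ∫ ω, exp (-(s * Z fun i => X i ω)) * ∑ i ∈ S, (Z (Function.update (fun i => X i ω) i b) -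
        Z fun i => X i ω) ^ 2 ∂P ≤ K * ∫ ω, exp (-(s * Z fun i => X i ω)) ∂P)
    {t : ℝ} (ht : 0 ≤ t) (ht₀ : t ≤ t₀) :
    ∫ ω, exp (-(t * Z fun i => X i ω)) ∂P ≤
      exp (-(t * ∫ ω, Z (fun i => X i ω) ∂P) + t ^ 2 * K / 2) := by
  obtain ⟨ω₀⟩ := nonempty_of_isProbabilityMeasure P
  have hab : ∀ _ : I, a ≤ b := fun i => (hbd i ω₀).1.trans (hbd i ω₀).2
  set e : Fin S.card → I := fun j => (S.equivFin.symm j : I) with he
  have hinj : Function.Injective e := fun j j' h =>
    S.equivFin.symm.injective (Subtype.ext h)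
  have heS : ∀ j, e j ∈ S := fun j => (S.equivFin.symm j).2
  have hexB : ∀ y, Box a b (xt a b S y) := fun y i => clp_mem (hab i) _
  have hup : ∀ c : I → ℝ, Box a b c → ∀ i, Box a b (Function.update c i b) := by
    intro c hc i k
    by_cases hk : k = i
    · subst hk
      rw [Function.update_self]
      exact ⟨hab k, le_rfl⟩
    · rw [Function.update_of_ne hk]
      exact hc k
  set Y : Ω → Fin S.card → ℝ := fun ω j => X (e j) ω with hY
  have hYm : Measurable Y := measurable_pi_lambda _ fun j => hX (e j)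
  have hlaw : P.map Y = Measure.pi fun j => P.map (X (e j)) :=
    (iIndepFun_iff_map_fun_eq_pi_map fun j => (hX (e j)).aemeasurable).1 (hind.precomp hinj)
  have hpr : ∀ j, IsProbabilityMeasure (P.map (X (e j))) := fun j =>
    Measure.isProbabilityMeasure_map (hX (e j)).aemeasurable
  have hZY : ∀ ω, Z (xt a b S (Y ω)) = Z fun i => X i ω := by
    intro ω
    refine hS _ _ (hexB _) (fun i => hbd i ω) fun i hi => ?_
    simp only [xt, hi, dite_true, hY, he, Equiv.symm_apply_apply]
    exact clp_id (hbd i ω)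
  have hxm := measurable_xt a b S
  have h := herbst_fin_lim (fun j => P.map (X (e j))) (M := M) (K := K) (t₀ := t₀) (fun y => Z (xt a b S y))
    (fun j y => Z (Function.update (xt a b S y) (e j) b)) (hZm.comp hxm)
    (fun j => hZm.comp (measurable_update_left.comp hxm)) (fun y => hM _ (hexB y))
    (fun j y => hM _ (hup _ (hexB y) _)) ?_ (fun j y => hmono _ (hexB y) _ (heS j)) ?_ ht ht₀
  · rw [← hlaw, integral_map hYm.aemeasurable, integral_map hYm.aemeasurable] at h
    · simpa only [hZY] using h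
    · exact (hZm.comp hxm).aestronglyMeasurable
    · have : Measurable fun y => exp (-(t * Z (xt a b S y))) := by
        have := hZm.comp hxm
        fun_prop
      exact this.aestronglyMeasurable
  · intro j y s
    congr 1
    funext k
    by_cases hk : k = e j
    · subst hk
      rw [Function.update_self, Function.update_self]
    · rw [Function.update_of_ne hk, Function.update_of_ne hk]
      by_cases hkS : k ∈ S
      · simp only [xt, hkS, dite_true]
        rw [Function.update_of_ne]
        intro hh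
        apply hk
        rw [he]
        simp only
        rw [← hh, Equiv.symm_apply_apply]
      · simp only [xt, hkS, dite_false]
  · intro s hs hs₀
    rw [← hlaw, integral_map hYm.aemeasurable, integral_map hYm.aemeasurable]
    · refine le_trans (le_of_eq ?_) ((hK s hs hs₀).trans (le_of_eq ?_))
      · refine integral_congr_ae (Filter.Eventually.of_forall fun ω => ?_)
        simp only [hZY]
        congr 1
        rw [← Finset.sum_coe_sort S]
        refine Fintype.sum_equiv S.equivFin.symm _ _ fun j => ?_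
        congr 2
        refine hS _ _ (hup _ (hexB _) _) (hup _ (fun i => hbd i ω) _) fun i hi => ?_
        by_cases hk : i = e j
        · subst hk
          rw [Function.update_self]
          exact (Function.update_self (β := fun _ => ℝ) _ _ _).symm
        · rw [Function.update_of_ne hk]
          refine Eq.trans ?_ (Function.update_of_ne (β := fun _ => ℝ) hk _ _).symm
          simp only [xt, hi, dite_true, hY, he, Equiv.symm_apply_apply]
          exact clp_id (hbd i ω)
      · simp only [hZY]
    · have : Measurable fun y => exp (-(s * Z (xt a b S y))) := by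
        have := hZm.comp hxm
        fun_prop
      exact this.aestronglyMeasurable
    · have h1 : Measurable fun y => exp (-(s * Z (xt a b S y))) := by
        have := hZm.comp hxm
        fun_prop
      have h2 : ∀ j, Measurable fun y => Z (Function.update (xt a b S y) (e j) b) := fun j =>
        hZm.comp (measurable_update_left.comp hxm)
      have h3 : Measurable fun y => ∑ j, (Z (Function.update (xt a b S y) (e j) b) -
          Z (xt a b S y)) ^ 2 :=
        Finset.measurable_sum _ fun j _ => ((h2 j).sub (hZm.comp hxm)).pow_const 2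
      exact (h1.mul h3).aestronglyMeasurable

end

end Pool.Agent.Helper38.PB
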