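import Pool.Agent.Helper38.PB.Reg
import Pool.Agent.Helper38.PB.Lim
import Pool.Agent.Helper33.PG.HerbstS

/-!
# Project PG+ (b), block B: Herbst's bound with a constant which does not depend on `1 / a`

`herbst`: for `Env P X ν a b`, `Reg P X a₀ c₀`, `b ≤ B`, `0 ≤ l`, `l a₀ ≤ c₀`:
`Zc P X S B l x y ≤ exp (- l mc + hr a₀ c₀ b B l ^ 2 n1 (y - x))`.
-/

set_option autoImplicit false

namespace Pool.Agent.Helper38.PB

open MeasureTheory ProbabilityTheory Set Filter
open Pool.Agent.Helper79.GR Pool.Agent.Helper79.GQ Pool.Agent.Helper51.NP Pool.Agent.Helper94.PG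
open Pool.Agent.Helper33.PG

variable {Ω : Type*} [MeasurableSpace Ω] {d : ℕ} {P : Measure Ω} {X : Edge d → Ω → ℝ}
  {ν : Measure ℝ} {a b B a₀ c₀ l : ℝ}

/-- the constant of the lower tail inequality in the regular case -/
noncomputable def hr (a₀ c₀ b B : ℝ) : ℝ := b ^ 2 * (B / a₀ + 1 + 1 / (Real.exp c₀ - 1)) / 2

/-- the squares of the increments against the number of edges of a geodesic -/
theorem sum_sq_len [DecidableEq (Edge d)] {c : Edge d → ℝ} (h : Bd a B c) (hbB : b ≤ B)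
    (S : Finset (Edge d)) (hS : ∀ e ∈ S, c e ≤ b) (x y : V d) :
    ∃ w : List (St d), pos x w = y ∧ (eds x w).Nodup ∧ cost c x w ≤ B * n1 (y - x) ∧
      a * w.length ≤ B * n1 (y - x) ∧
      ∑ e ∈ S, (T (Function.update c e b) x y - T c x y) ^ 2 ≤ (b - a) ^ 2 * w.length := by
  obtain ⟨w, hw, hcw⟩ := exists_min h x y
  have hg : Geo c x w := by
    rw [geo_iff h, hw]
    exact hcw
  refine ⟨w, hw, hg.nodup h, hcw.le.trans (T_le h x y), ?_, ?_⟩
  · have := length_geo h hg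
    rwa [hw] at this
  subst hw
  have hle : ∀ e ∈ S, (T (Function.update c e b) x (pos x w) - T c x (pos x w)) ^ 2 ≤
      (if e ∈ eds x w then (b - a) ^ 2 else 0) := by
    intro e he
    have h1 := T_update_ge h e (hS e he) hbB x (pos x w)
    have h2 := T_update_le h hg e (hS e he) hbB
    by_cases hm : e ∈ eds x w
    · rw [if_pos hm] at h2 ⊢
      have h3 := (h.2 e).1
      apply pow_le_pow_left₀ (by linarith)
      linarith
    · rw [if_neg hm] at h2 ⊢
      have h3 : T (Function.update c e b) x (pos x w) - T c x (pos x w) = 0 := by linarith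
      rw [h3]
      norm_num
  refine (Finset.sum_le_sum hle).trans ?_
  rw [← Finset.sum_filter, Finset.sum_const, nsmul_eq_mul, mul_comm]
  refine mul_le_mul_of_nonneg_left ?_ (sq_nonneg _)
  have h4 : (S.filter (fun e => e ∈ eds x w)).card ≤ (eds x w).toFinset.card := by
    apply Finset.card_le_card
    intro e he
    rw [Finset.mem_filter] at he
    exact List.mem_toFinset.2 he.2
  have h5 := h4.trans (List.toFinset_card_le _)
  rw [length_eds] at h5
  exact_mod_cast h5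

theorem cost_le_cut {c : Edge d → ℝ} (hc : ∀ e, c e ≤ B) (S : Set (Edge d)) (x : V d)
    (w : List (St d)) : cost c x w ≤ cost (cut S B c) x w := by
  refine cost_mono (fun e => ?_) x w
  by_cases he : e ∈ S
  · rw [Pool.Agent.Helper33.NP.cut_mem he]
  · rw [Pool.Agent.Helper33.NP.cut_notMem he]
    exact hc e

omit [MeasurableSpace Ω] in
/-- the number of edges of a geodesic is controlled by the events `Chp` -/
theorem len_le (hX : ∀ e ω, X e ω ≤ B) (S : Set (Edge d)) (x : V d) (w : List (St d)) (ω : Ω)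
    (hw : (eds x w).Nodup) {D : ℝ} (hD : cost (cut S B (cf X ω)) x w ≤ D) (ha₀ : 0 < a₀) {L₀ N : ℕ}
    (hL₀ : D ≤ a₀ * L₀) (hN : w.length ≤ N) :
    (w.length : ℝ) ≤ L₀ + ∑ k ∈ Finset.range N, (Chp X a₀ x (L₀ + 1 + k)).indicator 1 ω := by
  have hnn : ∀ k, (0 : ℝ) ≤ (Chp X a₀ x (L₀ + 1 + k)).indicator 1 ω := fun k =>
    indicator_nonneg (fun _ _ => zero_le_one) _
  rcases le_or_gt w.length L₀ with h1 | h1
  · have h2 : (w.length : ℝ) ≤ L₀ := by exact_mod_cast h1
    have h3 : (0 : ℝ) ≤ ∑ k ∈ Finset.range N, (Chp X a₀ x (L₀ + 1 + k)).indicator 1 ω :=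
      Finset.sum_nonneg fun k _ => hnn k
    linarith
  · have hcheap : cost (cf X ω) x w < a₀ * w.length := by
      have h2 := cost_le_cut (B := B) (fun e => hX e ω) S x w
      have h3 : a₀ * L₀ < a₀ * w.length := mul_lt_mul_of_pos_left (by exact_mod_cast h1) ha₀
      have h4 : cost (cf X ω) x w ≤ cost (cut S B (cf X ω)) x w := h2
      linarith
    have h5 : ∀ k ∈ Finset.range (w.length - L₀),
        (1 : ℝ) ≤ (Chp X a₀ x (L₀ + 1 + k)).indicator 1 ω := by
      intro k hk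
      rw [Finset.mem_range] at hk
      rw [indicator_of_mem]
      · simp
      · exact ⟨w, by omega, hw, hcheap⟩
    have h6 : ((w.length - L₀ : ℕ) : ℝ) ≤
        ∑ k ∈ Finset.range (w.length - L₀), (Chp X a₀ x (L₀ + 1 + k)).indicator 1 ω := by
      have := Finset.card_nsmul_le_sum (Finset.range (w.length - L₀)) _ (1 : ℝ) h5
      rw [Finset.card_range, nsmul_eq_mul, mul_one] at this
      exact this
    have h7 : ∑ k ∈ Finset.range (w.length - L₀), (Chp X a₀ x (L₀ + 1 + k)).indicator 1 ω ≤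
        ∑ k ∈ Finset.range N, (Chp X a₀ x (L₀ + 1 + k)).indicator (1 : Ω → ℝ) ω := by
      refine Finset.sum_le_sum_of_subset_of_nonneg ?_ fun k _ _ => hnn k
      intro k hk
      rw [Finset.mem_range] at hk ⊢
      omega
    rw [Nat.cast_sub h1.le] at h6
    linarith

theorem sum_exp_le (hc₀ : 0 < c₀) (L₀ N : ℕ) :
    ∑ k ∈ Finset.range N, Real.exp (-(c₀ * (L₀ + 1 + k : ℕ))) ≤
      Real.exp (-(c₀ * L₀)) * (1 / (Real.exp c₀ - 1)) := by
  have h1 : ∀ k ∈ Finset.range N, Real.exp (-(c₀ * (L₀ + 1 + k : ℕ))) =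
      Real.exp (-(c₀ * L₀)) * Real.exp (-c₀) * Real.exp (-c₀) ^ k := by
    intro k _
    rw [← Real.exp_nat_mul, ← Real.exp_add, ← Real.exp_add]
    congr 1
    push_cast
    ring
  rw [Finset.sum_congr rfl h1, ← Finset.mul_sum, mul_assoc]
  refine mul_le_mul_of_nonneg_left ?_ (Real.exp_pos _).le
  have h2 : Real.exp (-c₀) < 1 := by
    rw [← Real.exp_zero]
    exact Real.exp_lt_exp.2 (by linarith)
  have h3 := (summable_geometric_of_lt_one (Real.exp_pos (-c₀)).le h2).sum_le_tsum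
    (Finset.range N) (fun k _ => pow_nonneg (Real.exp_pos _).le k)
  rw [tsum_geometric_of_lt_one (Real.exp_pos (-c₀)).le h2] at h3
  refine (mul_le_mul_of_nonneg_left h3 (Real.exp_pos _).le).trans (le_of_eq ?_)
  have h4 : 1 < Real.exp c₀ := Real.one_lt_exp_iff.2 hc₀
  have h5 : Real.exp c₀ - 1 ≠ 0 := by linarith [h4]
  rw [Real.exp_neg] at h2 ⊢
  have h6 : 1 - (Real.exp c₀)⁻¹ ≠ 0 := by linarith
  field_simp

/-- the weighted mean of the squares of the increments -/
theorem mean_sq [DecidableEq (Edge d)] (h : Env P X ν a b) (hR : Reg P X a₀ c₀) (hB : b ≤ B)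
    (S : Set (Edge d)) (R : Finset (Edge d)) (hRS : ∀ e ∈ R, e ∈ S) (x y : V d) (hn : 1 ≤ n1 (y - x))
    (hab : 0 ≤ b) {s : ℝ} (hs : 0 ≤ s) (hs₀ : s * a₀ ≤ c₀) :
    ∫ ω, Real.exp (-(s * T (cut S B (cf X ω)) x y)) *
      ∑ e ∈ R, (T (cut S B (Function.update (cf X ω) e b)) x y - T (cut S B (cf X ω)) x y) ^ 2 ∂P ≤
      2 * hr a₀ c₀ b B * n1 (y - x) * ∫ ω, Real.exp (-(s * T (cut S B (cf X ω)) x y)) ∂P := by
  have := h.prob
  obtain ⟨ω₀⟩ := nonempty_of_isProbabilityMeasure P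
  obtain ⟨ha₀, hc₀, hP⟩ := hR
  set D : ℝ := B * n1 (y - x) with hD
  set L₀ : ℕ := ⌈D / a₀⌉₊ with hL₀
  obtain ⟨N, hN⟩ := exists_nat_ge (D / a)
  have hDa : D ≤ a₀ * L₀ := by
    have := Nat.le_ceil (D / a₀)
    rw [div_le_iff₀ ha₀] at this
    linarith
  have hB0 : 0 ≤ B := hab.trans hB
  have hD0 : 0 ≤ D := mul_nonneg hB0 (by linarith)
  have hmT := Pool.Agent.Helper33.NP.measurable_T_cut_env (B := B) h S x y
  set E : Ω → ℝ := fun ω => Real.exp (-(s * T (cut S B (cf X ω)) x y)) with hE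
  have hEm : Measurable E := by
    rw [hE]
    fun_prop
  have hE0 : ∀ ω, 0 ≤ E ω := fun ω => (Real.exp_pos _).le
  have hE1 : ∀ ω, E ω ≤ 1 := by
    intro ω
    have := (Pool.Agent.Helper33.NP.T_cut_bd (h.cf_bd ω) hB S x y).1
    refine Real.exp_le_one_iff.2 ?_
    have := mul_nonneg hs this
    linarith
  have hElow : ∀ ω, Real.exp (-(c₀ * L₀)) ≤ E ω := by
    intro ω
    have h1 := (Pool.Agent.Helper33.NP.T_cut_bd (h.cf_bd ω) hB S x y).2
    refine Real.exp_le_exp.2 ?_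
    have h2 : s * T (cut S B (cf X ω)) x y ≤ s * (a₀ * L₀) :=
      mul_le_mul_of_nonneg_left (h1.trans hDa) hs
    have h3 : s * (a₀ * L₀) ≤ c₀ * L₀ := by
      rw [← mul_assoc]
      exact mul_le_mul_of_nonneg_right hs₀ (Nat.cast_nonneg _)
    linarith
  have hEi : Integrable E P := Integrable.of_bound hEm.aestronglyMeasurable 1
    (Eventually.of_forall fun ω => by
      rw [Real.norm_eq_abs, abs_of_nonneg (hE0 ω)]
      exact hE1 ω)
  -- the pointwise bound
  have hpt : ∀ ω, ∑ e ∈ R, (T (cut S B (Function.update (cf X ω) e b)) x y -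
      T (cut S B (cf X ω)) x y) ^ 2 ≤ b ^ 2 *
        (L₀ + ∑ k ∈ Finset.range N, (Chp X a₀ x (L₀ + 1 + k)).indicator 1 ω) := by
    intro ω
    have h0 := h.cf_bd ω
    obtain ⟨w, hw1, hw2, hw3, hw4, hw5⟩ := sum_sq_len (Pool.Agent.Helper33.NP.cut_bd h0 hB S) hB R
      (fun e he => by
        rw [Pool.Agent.Helper33.NP.cut_mem (hRS e he)]
        exact (h0.2 e).2) x y
    have h1 : (w.length : ℝ) ≤ N := by
      refine le_trans ?_ hN
      rw [le_div_iff₀ h.apos]
      linarith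
    have h2 := len_le (X := X) (B := B) (fun e ω => (h.bd e ω).2.trans hB) S x w ω hw2 hw3 ha₀ hDa
      (N := N) (by exact_mod_cast h1)
    have h3 : ∑ e ∈ R, (T (cut S B (Function.update (cf X ω) e b)) x y -
      T (cut S B (cf X ω)) x y) ^ 2 ≤ (b - a) ^ 2 * w.length := by
      refine le_trans (le_of_eq ?_) hw5
      refine Finset.sum_congr rfl fun e he => ?_
      rw [Pool.Agent.Helper33.NP.cut_update B (cf X ω) (hRS e he)]
    refine h3.trans ?_
    have hba : (b - a) ^ 2 ≤ b ^ 2 := by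
      by_cases hne : Nonempty (Edge d)
      · obtain ⟨e⟩ := hne
        have := (h.bd e ω).1.trans (h.bd e ω).2
        have := h.apos
        refine pow_le_pow_left₀ (by linarith) (by linarith) 2
      · exfalso
        cases w with
        | nil =>
          rw [← hw1] at hn
          simp only [pos, sub_self, n1_zero] at hn
          linarith
        | cons s w => exact hne ⟨ed x s⟩
    exact mul_le_mul hba h2 (Nat.cast_nonneg _) (sq_nonneg _)
  have hind : ∀ k, Integrable ((Chp X a₀ x (L₀ + 1 + k)).indicator (1 : Ω → ℝ)) P := fun k =>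
    (integrable_const (1 : ℝ)).indicator (measurableSet_Chp h.meas a₀ x _)
  have hnn : ∀ ω, (0 : ℝ) ≤ ∑ k ∈ Finset.range N, (Chp X a₀ x (L₀ + 1 + k)).indicator 1 ω :=
    fun ω => Finset.sum_nonneg fun k _ => indicator_nonneg (fun _ _ => zero_le_one) _
  have hsumi : Integrable (fun ω => ∑ k ∈ Finset.range N,
      (Chp X a₀ x (L₀ + 1 + k)).indicator (1 : Ω → ℝ) ω) P :=
    integrable_finsetSum _ fun k _ => hind k
  have hstep : ∀ ω, E ω * ∑ e ∈ R, (T (cut S B (Function.update (cf X ω) e b)) x y -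
      T (cut S B (cf X ω)) x y) ^ 2 ≤ b ^ 2 * (L₀ * E ω + ∑ k ∈ Finset.range N,
        (Chp X a₀ x (L₀ + 1 + k)).indicator 1 ω) := by
    intro ω
    have h1 := mul_le_mul_of_nonneg_left (hpt ω) (hE0 ω)
    refine h1.trans ?_
    have h2 : E ω * ∑ k ∈ Finset.range N, (Chp X a₀ x (L₀ + 1 + k)).indicator (1 : Ω → ℝ) ω ≤
        1 * ∑ k ∈ Finset.range N, (Chp X a₀ x (L₀ + 1 + k)).indicator (1 : Ω → ℝ) ω :=
      mul_le_mul_of_nonneg_right (hE1 ω) (hnn ω)
    have h3 : 0 ≤ b ^ 2 := sq_nonneg b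
    nlinarith
  have hbigi : Integrable (fun ω => b ^ 2 * (L₀ * E ω + ∑ k ∈ Finset.range N,
        (Chp X a₀ x (L₀ + 1 + k)).indicator 1 ω)) P :=
    ((hEi.const_mul _).add hsumi).const_mul _
  have hlow0 : ∀ ω, 0 ≤ E ω * ∑ e ∈ R, (T (cut S B (Function.update (cf X ω) e b)) x y -
      T (cut S B (cf X ω)) x y) ^ 2 := fun ω =>
    mul_nonneg (hE0 ω) (Finset.sum_nonneg fun _ _ => sq_nonneg _)
  have hmain := integral_mono_of_nonneg (μ := P) (Eventually.of_forall hlow0) hbigi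
    (Eventually.of_forall hstep)
  refine hmain.trans ?_
  rw [integral_const_mul, integral_add (hEi.const_mul _) hsumi, integral_const_mul,
    integral_finsetSum _ fun k _ => hind k]
  have h8 : ∑ k ∈ Finset.range N, ∫ ω, (Chp X a₀ x (L₀ + 1 + k)).indicator (1 : Ω → ℝ) ω ∂P ≤
      1 / (Real.exp c₀ - 1) * ∫ ω, E ω ∂P := by
    have h9 : ∀ k ∈ Finset.range N, ∫ ω, (Chp X a₀ x (L₀ + 1 + k)).indicator (1 : Ω → ℝ) ω ∂P ≤
        Real.exp (-(c₀ * (L₀ + 1 + k : ℕ))) := by
      intro k _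
      rw [integral_indicator_one (measurableSet_Chp h.meas a₀ x _)]
      exact ENNReal.toReal_le_of_le_ofReal (Real.exp_pos _).le (hP x (L₀ + 1 + k))
    refine (Finset.sum_le_sum h9).trans ((sum_exp_le hc₀ L₀ N).trans ?_)
    rw [mul_comm]
    have h10 : 1 < Real.exp c₀ := Real.one_lt_exp_iff.2 hc₀
    refine mul_le_mul_of_nonneg_left ?_ (by
      have : 0 < Real.exp c₀ - 1 := by linarith
      positivity)
    have h11 := integral_mono (μ := P) (integrable_const (Real.exp (-(c₀ * L₀)))) hEi hElow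
    simpa using h11
  have hEint0 : 0 ≤ ∫ ω, E ω ∂P := integral_nonneg hE0
  have hL1 : (L₀ : ℝ) ≤ (B / a₀ + 1) * n1 (y - x) := by
    have h12 := (Nat.ceil_lt_add_one (show 0 ≤ D / a₀ by positivity)).le
    have h13 : D / a₀ + 1 ≤ (B / a₀ + 1) * n1 (y - x) := by
      rw [hD]
      have : B * n1 (y - x) / a₀ = B / a₀ * n1 (y - x) := by ring
      rw [this]
      nlinarith
    exact h12.trans h13
  have h14 : 0 ≤ 1 / (Real.exp c₀ - 1) := by
    have h10 : 1 < Real.exp c₀ := Real.one_lt_exp_iff.2 hc₀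
    have : 0 < Real.exp c₀ - 1 := by linarith
    positivity
  calc b ^ 2 * (L₀ * ∫ ω, E ω ∂P + ∑ k ∈ Finset.range N,
          ∫ ω, (Chp X a₀ x (L₀ + 1 + k)).indicator (1 : Ω → ℝ) ω ∂P)
      ≤ b ^ 2 * ((B / a₀ + 1) * n1 (y - x) * ∫ ω, E ω ∂P +
          1 / (Real.exp c₀ - 1) * n1 (y - x) * ∫ ω, E ω ∂P) := by
        refine mul_le_mul_of_nonneg_left (add_le_add ?_ (h8.trans ?_)) (sq_nonneg _)
        · exact mul_le_mul_of_nonneg_right hL1 hEint0
        · refine mul_le_mul_of_nonneg_right ?_ hEint0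
          nlinarith
    _ = 2 * hr a₀ c₀ b B * n1 (y - x) * ∫ ω, E ω ∂P := by
        unfold hr
        ring

/-- **Herbst's bound for regular environments** -/
theorem herbst (h : Env P X ν a b) (hR : Reg P X a₀ c₀) (hB : b ≤ B) (S : Set (Edge d))
    (hl : 0 ≤ l) (hl₀ : l * a₀ ≤ c₀) (x y : V d) :
    Zc P X S B l x y ≤
      Real.exp (-(l * mc P X S B x y) + hr a₀ c₀ b B * l ^ 2 * n1 (y - x)) := by
  classical
  have := h.prob
  obtain ⟨ω₀⟩ := nonempty_of_isProbabilityMeasure P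
  rcases eq_or_ne x y with hxy | hxy
  · subst hxy
    have hT : ∀ ω, T (cut S B (cf X ω)) x x = 0 := by
      intro ω
      have h1 := Pool.Agent.Helper33.NP.T_cut_bd (h.cf_bd ω) hB S x x
      rw [sub_self, n1_zero, mul_zero] at h1
      exact le_antisymm h1.2 h1.1
    unfold Zc mc
    simp [hT, n1_zero]
  have hn : 1 ≤ n1 (y - x) := by
    by_contra hcon
    rw [not_le] at hcon
    apply hxy
    have h0 : ∀ i, (y - x) i = 0 := by
      intro i
      by_contra hi
      have h1 : (1 : ℝ) ≤ |(((y - x) i : ℤ) : ℝ)| := by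
        have : (1 : ℤ) ≤ |(y - x) i| := Int.one_le_abs hi
        exact_mod_cast this
      have h2 : |(((y - x) i : ℤ) : ℝ)| ≤ n1 (y - x) := by
        unfold n1
        exact Finset.single_le_sum (f := fun i => |(((y - x) i : ℤ) : ℝ)|)
          (fun i _ => abs_nonneg _) (Finset.mem_univ i)
      linarith
    funext i
    have := h0 i
    simp only [Pi.sub_apply] at this
    omega
  have hbd : ∀ c : Edge d → ℝ, Box a b c → Bd a b c := fun c hc => ⟨h.apos, hc⟩
  have hne : Nonempty (Edge d) := by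
    obtain ⟨w, hw, -⟩ := exists_min (h.cf_bd ω₀) x y
    cases w with
    | nil => exact absurd hw hxy
    | cons s w => exact ⟨ed x s⟩
  have hb0 : 0 ≤ b := by
    obtain ⟨e⟩ := hne
    exact h.apos.le.trans ((h.bd e ω₀).1.trans (h.bd e ω₀).2)
  obtain ⟨ha₀, hc₀, hP⟩ := id hR
  obtain ⟨L, hL⟩ := exists_nat_ge (B * n1 (y - x) / a)
  have hL' : B * n1 (y - x) ≤ a * L := by
    rw [div_le_iff₀ h.apos] at hL
    linarith
  have key := herbst_lim (P := P) h.meas h.indep h.bd
    ((box x L).filter (fun e => e ∈ S)) (Z := fun c => T (cut S B c) x y)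
    (M := B * n1 (y - x)) (K := 2 * hr a₀ c₀ b B * n1 (y - x)) (t₀ := c₀ / a₀)
    (Pool.Agent.Helper33.NP.measurable_T_cut B S x y) ?_ ?_ ?_ ?_ hl
    (by rw [le_div_iff₀ ha₀]; exact hl₀)
  · refine key.trans (le_of_eq ?_)
    have e1 : l ^ 2 * (2 * hr a₀ c₀ b B * n1 (y - x)) / 2 =
        hr a₀ c₀ b B * l ^ 2 * n1 (y - x) := by
      ring
    rw [e1]
    rfl
  · intro c c' hc hc' hcc
    refine T_congr (Pool.Agent.Helper33.NP.cut_bd (hbd c hc) hB S)
      (Pool.Agent.Helper33.NP.cut_bd (hbd c' hc') hB S) x y L hL' ?_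
    intro e he
    by_cases heS : e ∈ S
    · rw [Pool.Agent.Helper33.NP.cut_mem heS, Pool.Agent.Helper33.NP.cut_mem heS]
      exact hcc e (Finset.mem_filter.2 ⟨he, heS⟩)
    · rw [Pool.Agent.Helper33.NP.cut_notMem heS, Pool.Agent.Helper33.NP.cut_notMem heS]
  · intro c hc
    have h1 := Pool.Agent.Helper33.NP.T_cut_bd (hbd c hc) hB S x y
    rw [abs_of_nonneg h1.1]
    exact h1.2
  · intro c hc e he
    have heS := (Finset.mem_filter.1 he).2
    rw [Pool.Agent.Helper33.NP.cut_update B c heS]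
    refine T_update_ge (Pool.Agent.Helper33.NP.cut_bd (hbd c hc) hB S) e ?_ hB x y
    rw [Pool.Agent.Helper33.NP.cut_mem heS]
    exact (hc e).2
  · intro s hs hs₀
    rw [le_div_iff₀ ha₀] at hs₀
    exact mean_sq h hR hB S _ (fun e he => (Finset.mem_filter.1 he).2) x y hn hb0 hs.le hs₀

end Pool.Agent.Helper38.PB
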